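import Pool.Agent.H16.FV.L.Four

/-!
Contracting circuits of length two, three and four preserves the non-existence of nowhere-zero
flows over the group of order four; any degrees.
-/

set_option autoImplicit false

namespace Q116.FF

open Finset Pool.Agent.TH362.TF Pool.Agent.TH362.TF.Four

set_option linter.unusedSectionVars false

variable {V E : Type} [Fintype V] [DecidableEq V] [DecidableEq E]

theorem B_quot (s t : E → V) (S : Finset E) (φ : E → F) (f : V → V) (v : V) :
    B (fun e => f (s e)) (fun e => f (t e)) S φ v =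
      ∑ u ∈ univ.filter (fun u => f u = v), B s t S φ u := by
  unfold B
  rw [Finset.sum_comm]
  refine Finset.sum_congr rfl fun e _ => ?_
  rw [Finset.sum_add_distrib, Finset.sum_ite_eq, Finset.sum_ite_eq]
  simp only [Finset.mem_filter, Finset.mem_univ, true_and]

/-- the map which sends the set `T` to `a` -/
def mrg (T : Finset V) (a : V) (v : V) : V := if v ∈ T then a else v

theorem B_out {s t : E → V} {S : Finset E} {φ : E → F} {T : Finset V} {a : V} (ha : a ∈ T)
    (h : ∀ v, Cons (fun e => mrg T a (s e)) (fun e => mrg T a (t e)) S φ v) {v : V} (hv : v ∉ T) :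
    B s t S φ v = 0 := by
  have h1 : B (fun e => mrg T a (s e)) (fun e => mrg T a (t e)) S φ v = 0 := h v
  rw [B_quot] at h1
  have h2 : univ.filter (fun u => mrg T a u = v) = {v} := by
    ext u
    simp only [mem_filter, mem_univ, true_and, mem_singleton, mrg]
    constructor
    · intro h3
      split_ifs at h3 with h4
      · exact absurd (h3 ▸ ha) hv
      · exact h3
    · rintro rfl
      rw [if_neg hv]
  rw [h2, sum_singleton] at h1
  exact h1

theorem B_in {s t : E → V} {S : Finset E} {φ : E → F} {T : Finset V} {a : V} (ha : a ∈ T)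
    (h : ∀ v, Cons (fun e => mrg T a (s e)) (fun e => mrg T a (t e)) S φ v) :
    ∑ v ∈ T, B s t S φ v = 0 := by
  have h1 : B (fun e => mrg T a (s e)) (fun e => mrg T a (t e)) S φ a = 0 := h a
  rw [B_quot] at h1
  have h2 : univ.filter (fun u => mrg T a u = a) = T := by
    ext u
    simp only [mem_filter, mem_univ, true_and, mrg]
    constructor
    · intro h3
      split_ifs at h3 with h4
      · exact h4
      · exact h3 ▸ ha
    · intro h3
      rw [if_pos h3]
  rw [h2] at h1
  exact h1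

theorem B_split (s t : E → V) {S C : Finset E} (hC : C ⊆ S) (φ : E → F) (v : V) :
    B s t S φ v = B s t (S \ C) φ v + B s t C φ v := by
  unfold B
  rw [Finset.sum_sdiff hC]

theorem B_congr (s t : E → V) {S : Finset E} {φ ψ : E → F} (h : ∀ e ∈ S, φ e = ψ e) (v : V) :
    B s t S φ v = B s t S ψ v := by
  unfold B
  exact Finset.sum_congr rfl fun e he => by rw [h e he]

theorem B_ins (s t : E → V) {C : Finset E} {e : E} (he : e ∉ C) (φ : E → F) (v : V) :
    B s t (insert e C) φ v = ((if s e = v then φ e else 0) + (if t e = v then φ e else 0)) +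
      B s t C φ v := by
  unfold B
  rw [Finset.sum_insert he]

theorem B_emp (s t : E → V) (φ : E → F) (v : V) : B s t ∅ φ v = 0 := by
  unfold B
  rw [Finset.sum_empty]

theorem ends_F {s t : E → V} {u w : V} {x : E} (h : Ends s t u w x) (v : V) (y : F) :
    ((if s x = v then y else 0) + (if t x = v then y else 0)) =
      (if u = v then y else 0) + (if w = v then y else 0) := by
  rcases h with ⟨h1, h2⟩ | ⟨h1, h2⟩
  · rw [h1, h2]
  · rw [h1, h2, add_comm]

/-- the exchange along a path -/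
theorem kempe' (s t : E → V) (S : Finset E) (φ : E → F) (r : F) (T : Finset V) (a : V)
    (ha : a ∈ T) (hφ : ∀ v, v ∉ T → B s t S φ v = 0) (hT : ∀ v ∈ T, om r (B s t S φ v) = 1) :
    ∃ (δ : E → ZMod 2) (u : V), u ∈ T ∧ u ≠ a ∧ (∀ e, δ e ≠ 0 → e ∈ S ∧ om r (φ e) = 1) ∧
      ∀ v, B s t S δ v = (if a = v then 1 else 0) + (if u = v then 1 else 0) := by
  classical
  set R : V → V → Prop := fun u u' => ∃ x ∈ S, om r (φ x) = 1 ∧ Ends s t u u' x with hR
  have hJ : ∀ u, Relation.ReflTransGen R a u → ∃ δ : E → ZMod 2,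
      (∀ e, δ e ≠ 0 → e ∈ S ∧ om r (φ e) = 1) ∧
      ∀ v, B s t S δ v = (if a = v then 1 else 0) + (if u = v then 1 else 0) := by
    intro u hu
    induction hu with
    | refl =>
      refine ⟨fun _ => 0, fun e he => absurd rfl he, fun v => ?_⟩
      rw [CharTwo.add_self_eq_zero]
      unfold B
      simp
    | @tail u u' _ h ih =>
      obtain ⟨δ, hδ, hB⟩ := ih
      obtain ⟨x, hxS, hx1, hxe⟩ := h
      refine ⟨fun e => δ e + (if e = x then 1 else 0), fun e he => ?_, fun v => ?_⟩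
      · by_cases hex : e = x
        · subst hex
          exact ⟨hxS, hx1⟩
        · simp only [if_neg hex, add_zero] at he
          exact hδ e he
      · rw [B_add, B_single s t S x hxS v, hB v, ends_ite hxe v]
        have h2 : (if u = v then (1 : ZMod 2) else 0) + (if u = v then 1 else 0) = 0 :=
          CharTwo.add_self_eq_zero _
        linear_combination h2
  have hex : ∃ u ∈ T, u ≠ a ∧ Relation.ReflTransGen R a u := by
    by_contra hcon
    push Not at hcon
    set K : Finset V := univ.filter (fun u => Relation.ReflTransGen R a u) with hK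
    have haK : a ∈ K := by
      rw [hK, mem_filter]
      exact ⟨mem_univ _, Relation.ReflTransGen.refl⟩
    have tot : ∑ v ∈ K, B s t S (fun e => omH r (φ e)) v = 1 := by
      rw [Finset.sum_eq_single a]
      · rw [B_hom]
        exact hT a ha
      · intro v hv hva
        by_cases hvT : v ∈ T
        · exact absurd (mem_filter.1 hv).2 (hcon v hvT hva)
        · rw [B_hom, hφ v hvT, map_zero]
      · intro h
        exact absurd haK h
    have sw : ∑ v ∈ K, B s t S (fun e => omH r (φ e)) v =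
        ∑ e ∈ S, ((if s e ∈ K then om r (φ e) else 0) + (if t e ∈ K then om r (φ e) else 0)) := by
      unfold B
      rw [Finset.sum_comm]
      refine Finset.sum_congr rfl fun e _ => ?_
      rw [Finset.sum_add_distrib, Finset.sum_ite_eq, Finset.sum_ite_eq]
      rfl
    have hz : ∑ e ∈ S, ((if s e ∈ K then om r (φ e) else 0) +
        (if t e ∈ K then om r (φ e) else 0)) = 0 := by
      refine Finset.sum_eq_zero fun e he => ?_
      rcases two_cases (om r (φ e)) with h0 | h1
      · rw [h0]; simp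
      · have hiff : s e ∈ K ↔ t e ∈ K := by
          rw [hK, Finset.mem_filter, Finset.mem_filter]
          constructor
          · rintro ⟨_, h⟩
            exact ⟨Finset.mem_univ _, h.tail ⟨e, he, h1, Or.inl ⟨rfl, rfl⟩⟩⟩
          · rintro ⟨_, h⟩
            exact ⟨Finset.mem_univ _, h.tail ⟨e, he, h1, Or.inr ⟨rfl, rfl⟩⟩⟩
        by_cases hs : s e ∈ K
        · rw [if_pos hs, if_pos (hiff.1 hs), CharTwo.add_self_eq_zero]
        · rw [if_neg hs, if_neg (fun h => hs (hiff.2 h)), zero_add]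
    rw [sw, hz] at tot
    exact zero_ne_one tot
  obtain ⟨u, huT, hua, hreach⟩ := hex
  obtain ⟨δ, hδ, hB⟩ := hJ _ hreach
  exact ⟨δ, u, huT, hua, hδ, hB⟩


theorem B_inside {s t : E → V} {C : Finset E} {T : Finset V} (hC : ∀ e ∈ C, s e ∈ T ∧ t e ∈ T)
    (φ : E → F) : (∀ v, v ∉ T → B s t C φ v = 0) ∧ ∑ v ∈ T, B s t C φ v = 0 := by
  constructor
  · intro v hv
    unfold B
    refine Finset.sum_eq_zero fun e he => ?_
    rw [if_neg (fun h : s e = v => hv (h ▸ (hC e he).1)),
      if_neg (fun h : t e = v => hv (h ▸ (hC e he).2)), add_zero]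
  · unfold B
    rw [Finset.sum_comm]
    refine Finset.sum_eq_zero fun e he => ?_
    rw [Finset.sum_add_distrib, Finset.sum_ite_eq, Finset.sum_ite_eq, if_pos (hC e he).1,
      if_pos (hC e he).2, addF]

theorem setup {s t : E → V} {S C : Finset E} {T : Finset V} {a : V} (ha : a ∈ T) (hCS : C ⊆ S)
    (hC : ∀ e ∈ C, s e ∈ T ∧ t e ∈ T)
    (h : NZ (fun e => mrg T a (s e)) (fun e => mrg T a (t e)) S) :
    ∃ φ : E → F, (∀ e ∈ S \ C, φ e ≠ 0) ∧ (∀ v, v ∉ T → B s t (S \ C) φ v = 0) ∧
      ∑ v ∈ T, B s t (S \ C) φ v = 0 := by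
  obtain ⟨φ, h1, h2⟩ := h
  obtain ⟨k1, k2⟩ := B_inside hC φ
  refine ⟨φ, fun e he => h1 e (mem_sdiff.1 he).1, fun v hv => ?_, ?_⟩
  · have h3 := B_out ha h2 hv
    rw [B_split s t hCS, k1 v hv, add_zero] at h3
    exact h3
  · have h3 := B_in ha h2
    rw [Finset.sum_congr rfl (fun v _ => B_split s t hCS φ v), Finset.sum_add_distrib, k2,
      add_zero] at h3
    exact h3

theorem finish {s t : E → V} {S C : Finset E} (hCS : C ⊆ S) (φ ψ : E → F)
    (h1 : ∀ e ∈ S \ C, φ e ≠ 0) (h2 : ∀ e ∈ C, ψ e ≠ 0)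
    (h3 : ∀ v, B s t (S \ C) φ v + B s t C ψ v = 0) : NZ s t S := by
  refine ⟨fun e => if e ∈ C then ψ e else φ e, fun e he => ?_, fun v => ?_⟩
  · by_cases h : e ∈ C
    · simp only [h, if_true]
      exact h2 e h
    · simp only [h, if_false]
      exact h1 e (mem_sdiff.2 ⟨he, h⟩)
  · have h4 : B s t S (fun e => if e ∈ C then ψ e else φ e) v = 0 := by
      rw [B_split s t hCS, ← h3 v]
      congr 1
      · exact B_congr s t (fun e he => by rw [if_neg (mem_sdiff.1 he).2]) v
      · exact B_congr s t (fun e he => by rw [if_pos he]) v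
    exact h4

theorem avoid2 : ∀ p : F, ∃ x : F, x ≠ 0 ∧ x + p ≠ 0 := by decide

theorem avoid3 : ∀ p q : F, ∃ x : F, x ≠ 0 ∧ p + x ≠ 0 ∧ q + x ≠ 0 := by decide

theorem avoid4 : ∀ p q r : F, (∃ x : F, x ≠ 0 ∧ p + x ≠ 0 ∧ q + x ≠ 0 ∧ r + (q + x) ≠ 0) ∨
    (p ≠ 0 ∧ q ≠ 0 ∧ p ≠ q ∧ r = p) := by decide

theorem eq_of_addF {a b : F} (h : a + b = 0) : a = b := by
  revert a b; decide

theorem digon {s t : E → V} {S : Finset E} {a b : V} {e1 e2 : E} (hab : a ≠ b)
    (h1 : e1 ∈ S) (h2 : e2 ∈ S) (he : e1 ≠ e2) (k1 : Ends s t a b e1) (k2 : Ends s t a b e2)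
    (h : NZ (fun e => mrg {a, b} a (s e)) (fun e => mrg {a, b} a (t e)) S) : NZ s t S := by
  have hCS : ({e1, e2} : Finset E) ⊆ S := by
    intro e; simp only [mem_insert, mem_singleton]; rintro (rfl | rfl) <;> assumption
  have hC : ∀ e ∈ ({e1, e2} : Finset E), s e ∈ ({a, b} : Finset V) ∧ t e ∈ ({a, b} : Finset V) := by
    intro e; simp only [mem_insert, mem_singleton]
    rintro (rfl | rfl)
    · rcases k1 with ⟨x, y⟩ | ⟨x, y⟩ <;> simp [x, y]
    · rcases k2 with ⟨x, y⟩ | ⟨x, y⟩ <;> simp [x, y]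
  obtain ⟨φ, hφ, hout, hin⟩ := setup (a := a) (by simp) hCS hC h
  rw [sum_pair hab] at hin
  have hb := eq_of_addF hin
  obtain ⟨x, hx1, hx2⟩ := avoid2 (B s t (S \ {e1, e2}) φ a)
  refine finish hCS φ (fun e => if e = e1 then x else x + B s t (S \ {e1, e2}) φ a) hφ ?_ ?_
  · intro e
    simp only [mem_insert, mem_singleton]
    rintro (rfl | rfl)
    · simpa using hx1
    · simpa [he.symm] using hx2
  · intro v
    have e3 : ({e1, e2} : Finset E) = insert e1 (insert e2 ∅) := rfl
    rw [e3, B_ins s t (by simpa using he), B_ins s t (by simp), B_emp, ends_F k1, ends_F k2]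
    simp only [if_true, if_neg he.symm, add_zero]
    rw [← e3]
    by_cases ha : v = a
    · subst ha
      simp only [if_true, if_neg hab.symm]
      linear_combination addF x + addF (B s t (S \ {e1, e2}) φ v)
    · by_cases hb' : v = b
      · subst hb'
        simp only [if_true, if_neg hab]
        rw [← hb]
        linear_combination addF x + addF (B s t (S \ {e1, e2}) φ a)
      · rw [hout v (by simp [ha, hb']), if_neg (Ne.symm ha), if_neg (Ne.symm hb'),
          if_neg (Ne.symm ha), if_neg (Ne.symm hb')]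
        rfl


theorem ends_inj {s t : E → V} {a b c d : V} {e : E} (h : Ends s t a b e) (h' : Ends s t c d e) :
    (a = c ∧ b = d) ∨ (a = d ∧ b = c) := by
  rcases h with ⟨h1, h2⟩ | ⟨h1, h2⟩ <;> rcases h' with ⟨h3, h4⟩ | ⟨h3, h4⟩
  · exact Or.inl ⟨h1.symm.trans h3, h2.symm.trans h4⟩
  · exact Or.inr ⟨h1.symm.trans h3, h2.symm.trans h4⟩
  · exact Or.inr ⟨h2.symm.trans h4, h1.symm.trans h3⟩
  · exact Or.inl ⟨h2.symm.trans h4, h1.symm.trans h3⟩

theorem ends_mem {s t : E → V} {a b : V} {e : E} (h : Ends s t a b e) {T : Finset V} (ha : a ∈ T)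
    (hb : b ∈ T) : s e ∈ T ∧ t e ∈ T := by
  rcases h with ⟨h1, h2⟩ | ⟨h1, h2⟩
  · rw [h1, h2]; exact ⟨ha, hb⟩
  · rw [h1, h2]; exact ⟨hb, ha⟩

theorem triangle {s t : E → V} {S : Finset E} {a b c : V} {e1 e2 e3 : E} (hab : a ≠ b)
    (hbc : b ≠ c) (hca : c ≠ a) (h1 : e1 ∈ S) (h2 : e2 ∈ S) (h3 : e3 ∈ S)
    (k1 : Ends s t a b e1) (k2 : Ends s t b c e2) (k3 : Ends s t c a e3)
    (h : NZ (fun e => mrg {a, b, c} a (s e)) (fun e => mrg {a, b, c} a (t e)) S) : NZ s t S := by
  have n12 : e1 ≠ e2 := by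
    rintro rfl
    rcases ends_inj k1 k2 with ⟨x, _⟩ | ⟨x, _⟩
    · exact hab x
    · exact hca x.symm
  have n13 : e1 ≠ e3 := by
    rintro rfl
    rcases ends_inj k1 k3 with ⟨x, _⟩ | ⟨_, x⟩
    · exact hca x.symm
    · exact hbc x
  have n23 : e2 ≠ e3 := by
    rintro rfl
    rcases ends_inj k2 k3 with ⟨x, _⟩ | ⟨x, _⟩
    · exact hbc x
    · exact hab x.symm
  have hCS : ({e1, e2, e3} : Finset E) ⊆ S := by
    intro e; simp only [mem_insert, mem_singleton]; rintro (rfl | rfl | rfl) <;> assumption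
  have hC : ∀ e ∈ ({e1, e2, e3} : Finset E),
      s e ∈ ({a, b, c} : Finset V) ∧ t e ∈ ({a, b, c} : Finset V) := by
    intro e he; simp only [mem_insert, mem_singleton] at he
    rcases he with rfl | rfl | rfl
    · exact ends_mem (T := {a, b, c}) k1 (by simp) (by simp)
    · exact ends_mem (T := {a, b, c}) k2 (by simp) (by simp)
    · exact ends_mem (T := {a, b, c}) k3 (by simp) (by simp)
  obtain ⟨φ, hφ, hout, hin⟩ := setup (a := a) (by simp) hCS hC h
  rw [sum_insert (by simp [hab, hca.symm]), sum_pair hbc] at hin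
  obtain ⟨x, hx1, hx2, hx3⟩ := avoid3 (B s t (S \ {e1, e2, e3}) φ a)
    (B s t (S \ {e1, e2, e3}) φ b)
  refine finish hCS φ (fun e => if e = e1 then x else if e = e2 then
    B s t (S \ {e1, e2, e3}) φ b + x else B s t (S \ {e1, e2, e3}) φ a + x) hφ ?_ ?_
  · intro e
    simp only [mem_insert, mem_singleton]
    rintro (rfl | rfl | rfl)
    · simpa using hx1
    · simpa [n12.symm] using hx3
    · simpa [n13.symm, n23.symm] using hx2
  · intro v
    have e4 : ({e1, e2, e3} : Finset E) = insert e1 (insert e2 (insert e3 ∅)) := rfl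
    rw [e4, B_ins s t (by simp [n12, n13]), B_ins s t (by simp [n23]), B_ins s t (by simp), B_emp,
      ends_F k1, ends_F k2, ends_F k3]
    simp only [if_true, if_neg n12.symm, if_neg n13.symm, if_neg n23.symm, add_zero]
    rw [← e4]
    by_cases ha : v = a
    · subst ha
      simp only [if_true, if_neg hab.symm, if_neg hca]
      linear_combination addF x + addF (B s t (S \ {e1, e2, e3}) φ v)
    · by_cases hb' : v = b
      · subst hb'
        simp only [if_true, if_neg hab, if_neg hbc.symm]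
        linear_combination addF x + addF (B s t (S \ {e1, e2, e3}) φ v)
      · by_cases hc' : v = c
        · subst hc'
          simp only [if_true, if_neg hbc, if_neg hca.symm]
          linear_combination addF x + hin
        · rw [hout v (by simp [ha, hb', hc'])]
          simp only [if_neg (Ne.symm ha), if_neg (Ne.symm hb'), if_neg (Ne.symm hc'), add_zero]

theorem quad_fin {s t : E → V} {S : Finset E} {a b c d : V} {e1 e2 e3 e4 : E} (hab : a ≠ b)
    (hbc : b ≠ c) (hcd : c ≠ d) (hda : d ≠ a) (hac : a ≠ c) (hbd : b ≠ d)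
    (n12 : e1 ≠ e2) (n13 : e1 ≠ e3) (n14 : e1 ≠ e4) (n23 : e2 ≠ e3) (n24 : e2 ≠ e4) (n34 : e3 ≠ e4)
    (k1 : Ends s t a b e1) (k2 : Ends s t b c e2) (k3 : Ends s t c d e3) (k4 : Ends s t d a e4)
    (hCS : ({e1, e2, e3, e4} : Finset E) ⊆ S) (φ : E → F)
    (hφ : ∀ e ∈ S \ {e1, e2, e3, e4}, φ e ≠ 0)
    (hout : ∀ v, v ∉ ({a, b, c, d} : Finset V) → B s t (S \ {e1, e2, e3, e4}) φ v = 0)
    (hin : B s t (S \ {e1, e2, e3, e4}) φ a + (B s t (S \ {e1, e2, e3, e4}) φ b +
      (B s t (S \ {e1, e2, e3, e4}) φ c + B s t (S \ {e1, e2, e3, e4}) φ d)) = 0)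
    (x : F) (hx1 : x ≠ 0) (hx2 : B s t (S \ {e1, e2, e3, e4}) φ a + x ≠ 0)
    (hx3 : B s t (S \ {e1, e2, e3, e4}) φ b + x ≠ 0)
    (hx4 : B s t (S \ {e1, e2, e3, e4}) φ c + (B s t (S \ {e1, e2, e3, e4}) φ b + x) ≠ 0) :
    NZ s t S := by
  refine finish hCS φ (fun e => if e = e1 then x else if e = e2 then
    B s t (S \ {e1, e2, e3, e4}) φ b + x else if e = e3 then
    B s t (S \ {e1, e2, e3, e4}) φ c + (B s t (S \ {e1, e2, e3, e4}) φ b + x) else
    B s t (S \ {e1, e2, e3, e4}) φ a + x) hφ ?_ ?_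
  · intro e
    simp only [mem_insert, mem_singleton]
    rintro (rfl | rfl | rfl | rfl)
    · simpa using hx1
    · simpa [n12.symm] using hx3
    · simpa [n13.symm, n23.symm] using hx4
    · simpa [n14.symm, n24.symm, n34.symm] using hx2
  · intro v
    have e5 : ({e1, e2, e3, e4} : Finset E) = insert e1 (insert e2 (insert e3 (insert e4 ∅))) := rfl
    rw [e5, B_ins s t (by simp [n12, n13, n14]), B_ins s t (by simp [n23, n24]),
      B_ins s t (by simp [n34]), B_ins s t (by simp), B_emp,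
      ends_F k1, ends_F k2, ends_F k3, ends_F k4]
    simp only [if_true, if_neg n12.symm, if_neg n13.symm, if_neg n23.symm, if_neg n14.symm,
      if_neg n24.symm, if_neg n34.symm, add_zero]
    rw [← e5]
    by_cases ha : v = a
    · subst ha
      simp only [if_true, if_neg hab.symm, if_neg hac.symm, if_neg hda]
      linear_combination addF x + addF (B s t (S \ {e1, e2, e3, e4}) φ v)
    · by_cases hb' : v = b
      · subst hb'
        simp only [if_true, if_neg hab, if_neg hbc.symm, if_neg hbd.symm]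
        linear_combination addF x + addF (B s t (S \ {e1, e2, e3, e4}) φ v)
      · by_cases hc' : v = c
        · subst hc'
          simp only [if_true, if_neg hbc, if_neg hac, if_neg hcd.symm]
          linear_combination addF x + addF (B s t (S \ {e1, e2, e3, e4}) φ v) +
            addF (B s t (S \ {e1, e2, e3, e4}) φ b)
        · by_cases hd' : v = d
          · subst hd'
            simp only [if_true, if_neg hcd, if_neg hbd, if_neg hda.symm]
            linear_combination addF x + hin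
          · rw [hout v (by simp [ha, hb', hc', hd'])]
            simp only [if_neg (Ne.symm ha), if_neg (Ne.symm hb'), if_neg (Ne.symm hc'),
              if_neg (Ne.symm hd'), add_zero]

theorem om_self : ∀ p q : F, p ≠ 0 → q ≠ 0 → p ≠ q → om (p + q) p = 1 ∧ om (p + q) q = 1 := by
  decide

theorem fin1 : ∀ p q : F, p ≠ 0 → q ≠ 0 → p ≠ q → ∃ x : F, x ≠ 0 ∧ (p + (p + q)) + x ≠ 0 ∧
    (q + (p + q)) + x ≠ 0 ∧ p + ((q + (p + q)) + x) ≠ 0 := by decide

theorem fin2 : ∀ p q : F, p ≠ 0 → q ≠ 0 → p ≠ q → ∃ x : F, x ≠ 0 ∧ (p + (p + q)) + x ≠ 0 ∧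
    q + x ≠ 0 ∧ (p + (p + q)) + (q + x) ≠ 0 := by decide

theorem fin3 : ∀ p q : F, p ≠ 0 → q ≠ 0 → p ≠ q → ∃ x : F, x ≠ 0 ∧ (p + (p + q)) + x ≠ 0 ∧
    q + x ≠ 0 ∧ p + (q + x) ≠ 0 := by decide

theorem quad {s t : E → V} {S : Finset E} {a b c d : V} {e1 e2 e3 e4 : E} (hab : a ≠ b)
    (hbc : b ≠ c) (hcd : c ≠ d) (hda : d ≠ a) (hac : a ≠ c) (hbd : b ≠ d)
    (h1 : e1 ∈ S) (h2 : e2 ∈ S) (h3 : e3 ∈ S) (h4 : e4 ∈ S)
    (k1 : Ends s t a b e1) (k2 : Ends s t b c e2) (k3 : Ends s t c d e3) (k4 : Ends s t d a e4)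
    (h : NZ (fun e => mrg {a, b, c, d} a (s e)) (fun e => mrg {a, b, c, d} a (t e)) S) :
    NZ s t S := by
  have n12 : e1 ≠ e2 := by
    rintro rfl
    rcases ends_inj k1 k2 with ⟨x, _⟩ | ⟨x, _⟩
    · exact hab x
    · exact hac x
  have n13 : e1 ≠ e3 := by
    rintro rfl
    rcases ends_inj k1 k3 with ⟨x, _⟩ | ⟨x, _⟩
    · exact hac x
    · exact hda x.symm
  have n14 : e1 ≠ e4 := by
    rintro rfl
    rcases ends_inj k1 k4 with ⟨x, _⟩ | ⟨_, x⟩
    · exact hda x.symm
    · exact hbd x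
  have n23 : e2 ≠ e3 := by
    rintro rfl
    rcases ends_inj k2 k3 with ⟨x, _⟩ | ⟨x, _⟩
    · exact hbc x
    · exact hbd x
  have n24 : e2 ≠ e4 := by
    rintro rfl
    rcases ends_inj k2 k4 with ⟨x, _⟩ | ⟨x, _⟩
    · exact hbd x
    · exact hab x.symm
  have n34 : e3 ≠ e4 := by
    rintro rfl
    rcases ends_inj k3 k4 with ⟨x, _⟩ | ⟨x, _⟩
    · exact hcd x
    · exact hac x.symm
  have hCS : ({e1, e2, e3, e4} : Finset E) ⊆ S := by
    intro e; simp only [mem_insert, mem_singleton]; rintro (rfl | rfl | rfl | rfl) <;> assumption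
  have hC : ∀ e ∈ ({e1, e2, e3, e4} : Finset E),
      s e ∈ ({a, b, c, d} : Finset V) ∧ t e ∈ ({a, b, c, d} : Finset V) := by
    intro e he; simp only [mem_insert, mem_singleton] at he
    rcases he with rfl | rfl | rfl | rfl
    · exact ends_mem (T := {a, b, c, d}) k1 (by simp) (by simp)
    · exact ends_mem (T := {a, b, c, d}) k2 (by simp) (by simp)
    · exact ends_mem (T := {a, b, c, d}) k3 (by simp) (by simp)
    · exact ends_mem (T := {a, b, c, d}) k4 (by simp) (by simp)
  obtain ⟨φ, hφ, hout, hin⟩ := setup (a := a) (by simp) hCS hC h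
  rw [sum_insert (by simp [hab, hac, hda.symm]), sum_insert (by simp [hbc, hbd]),
    sum_pair hcd] at hin
  have qf := @quad_fin V E _ _ _ s t S a b c d e1 e2 e3 e4 hab hbc hcd hda hac hbd n12 n13 n14
    n23 n24 n34 k1 k2 k3 k4 hCS
  rcases avoid4 (B s t (S \ {e1, e2, e3, e4}) φ a) (B s t (S \ {e1, e2, e3, e4}) φ b)
    (B s t (S \ {e1, e2, e3, e4}) φ c) with ⟨x, x1, x2, x3, x4⟩ | ⟨p0, q0, pq, hc⟩
  · exact qf φ hφ hout hin x x1 x2 x3 x4
  have hd : B s t (S \ {e1, e2, e3, e4}) φ d = B s t (S \ {e1, e2, e3, e4}) φ b := by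
    rw [hc] at hin
    apply eq_of_addF
    linear_combination hin - addF (B s t (S \ {e1, e2, e3, e4}) φ a)
  set p := B s t (S \ {e1, e2, e3, e4}) φ a with hp
  set q := B s t (S \ {e1, e2, e3, e4}) φ b with hq
  obtain ⟨o1, o2⟩ := om_self p q p0 q0 pq
  obtain ⟨δ, u, huT, hua, hδ, hB⟩ := kempe' s t (S \ {e1, e2, e3, e4}) φ (p + q) {a, b, c, d} a
    (by simp) hout (by
      intro v hv
      simp only [mem_insert, mem_singleton] at hv
      rcases hv with rfl | rfl | rfl | rfl
      · exact o1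
      · exact o2
      · rw [hc]; exact o1
      · rw [hd]; exact o2)
  set φ2 : E → F := fun e => φ e + mulH (p + q) (δ e) with hφ2
  have hB2 : ∀ v, B s t (S \ {e1, e2, e3, e4}) φ2 v = B s t (S \ {e1, e2, e3, e4}) φ v +
      mulH (p + q) ((if a = v then 1 else 0) + (if u = v then 1 else 0)) := by
    intro v
    rw [hφ2, B_add, B_hom, hB v]
  have m1 : mulH (p + q) 1 = p + q := by
    show ((1 : ZMod 2) * (p + q).1, (1 : ZMod 2) * (p + q).2) = p + q
    rw [one_mul, one_mul]
  have m2 : mulH (p + q) (1 + 0) = p + q := by rw [add_zero]; exact m1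
  have m3 : mulH (p + q) (0 + 1) = p + q := by rw [zero_add]; exact m1
  have m0 : mulH (p + q) (0 + 0) = 0 := by rw [add_zero, map_zero]
  have hφ2n : ∀ e ∈ S \ {e1, e2, e3, e4}, φ2 e ≠ 0 := by
    intro e he
    rcases two_cases (δ e) with h0 | h0
    · simp only [hφ2, h0, map_zero, add_zero]
      exact hφ e he
    · have h5 := (hδ e (by rw [h0]; exact one_ne_zero)).2
      simp only [hφ2, h0, m1]
      exact om_ne _ _ h5
  have hout2 : ∀ v, v ∉ ({a, b, c, d} : Finset V) → B s t (S \ {e1, e2, e3, e4}) φ2 v = 0 := by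
    intro v hv
    rw [hB2 v, hout v hv, if_neg (fun h5 : a = v => hv (by simp [← h5])),
      if_neg (fun h5 : u = v => hv (h5 ▸ huT)), m0, add_zero]
  have ga : B s t (S \ {e1, e2, e3, e4}) φ2 a = p + (p + q) := by
    rw [hB2 a, if_pos rfl, if_neg hua, m2]
  have fin : ∀ (y z w : F), B s t (S \ {e1, e2, e3, e4}) φ2 b = y →
      B s t (S \ {e1, e2, e3, e4}) φ2 c = z → B s t (S \ {e1, e2, e3, e4}) φ2 d = w →
      (p + (p + q)) + (y + (z + w)) = 0 →
      (∃ x : F, x ≠ 0 ∧ (p + (p + q)) + x ≠ 0 ∧ y + x ≠ 0 ∧ z + (y + x) ≠ 0) → NZ s t S := by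
    rintro y z w hy hz hw hs ⟨x, x1, x2, x3, x4⟩
    refine qf φ2 hφ2n hout2 ?_ x x1 ?_ ?_ ?_
    · rw [ga, hy, hz, hw]; exact hs
    · rw [ga]; exact x2
    · rw [hy]; exact x3
    · rw [hy, hz]; exact x4
  simp only [mem_insert, mem_singleton] at huT
  rcases huT with rfl | rfl | rfl | rfl
  · exact absurd rfl hua
  · refine fin (q + (p + q)) p q ?_ ?_ ?_ ?_ (fin1 p q p0 q0 pq)
    · rw [hB2, if_neg hab, if_pos rfl, m3]
    · rw [hB2, if_neg hac, if_neg hbc, m0, add_zero, hc]
    · rw [hB2, if_neg hda.symm, if_neg hbd, m0, add_zero, hd]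
    · linear_combination addF p + addF p + addF q + addF q - addF q + addF q
  · refine fin q (p + (p + q)) q ?_ ?_ ?_ ?_ (fin2 p q p0 q0 pq)
    · rw [hB2, if_neg hab, if_neg hbc.symm, m0, add_zero]
    · rw [hB2, if_neg hac, if_pos rfl, m3, hc]
    · rw [hB2, if_neg hda.symm, if_neg hcd, m0, add_zero, hd]
    · linear_combination addF p + addF p + addF q + addF q
  · refine fin q p (q + (p + q)) ?_ ?_ ?_ ?_ (fin3 p q p0 q0 pq)
    · rw [hB2, if_neg hab, if_neg hbd.symm, m0, add_zero]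
    · rw [hB2, if_neg hac, if_neg hcd.symm, m0, add_zero, hc]
    · rw [hB2, if_neg hda.symm, if_pos rfl, m3, hd]
    · linear_combination addF p + addF p + addF q + addF q

end Q116.FF
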