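import Pool.Agent.H16.FV.L.Stm

set_option autoImplicit false

namespace Pool.Agent.TH362.TF

open Finset

set_option linter.unusedSectionVars false
set_option synthInstance.maxHeartbeats 400000
set_option synthInstance.maxSize 2048

variable {V E : Type} [Fintype V] [DecidableEq V] [DecidableEq E]

theorem sum_mod_card {ι : Type} (A : Finset ι) (f : ι → ℕ) :
    (∑ i ∈ A, f i) % 2 = (A.filter (fun i => Odd (f i))).card % 2 := by
  classical
  rw [Finset.sum_nat_mod, Finset.card_filter]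
  congr 1
  refine Finset.sum_congr rfl fun i _ => ?_
  by_cases h : Odd (f i)
  · rw [if_pos h, Nat.odd_iff.1 h]
  · rw [if_neg h, Nat.even_iff.1 (Nat.not_odd_iff_even.1 h)]

theorem deg_sum (s t : E → V) (S : Finset E) (A : Finset V) :
    ∑ v ∈ A, deg s t S v =
      ∑ e ∈ S, ((if s e ∈ A then 1 else 0) + (if t e ∈ A then 1 else 0)) := by
  unfold deg
  rw [Finset.sum_comm]
  refine Finset.sum_congr rfl fun e _ => ?_
  rw [Finset.sum_add_distrib, Finset.sum_ite_eq, Finset.sum_ite_eq]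

theorem parity (s t : E → V) (S : Finset E) (x : V → Bool) :
    ((odd s t S).filter (fun v => x v = true)).card % 2 = (cut s t S x).card % 2 := by
  have h1 : (odd s t S).filter (fun v => x v = true) =
      (univ.filter (fun v => x v = true)).filter (fun v => Odd (deg s t S v)) := by
    ext v; simp [odd, and_comm]
  rw [h1, ← sum_mod_card, deg_sum, sum_mod_card]
  congr 2
  unfold cut
  refine Finset.filter_congr fun e _ => ?_
  simp only [Finset.mem_filter, Finset.mem_univ, true_and]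
  cases x (s e) <;> cases x (t e) <;> simp

theorem addF (y : F) : y + y = 0 := by revert y; decide

theorem flow_cut {s t : E → V} {S : Finset E} {φ : E → F} (x : V → Bool)
    (h : ∀ v, x v = true → Cons s t S φ v) : ∑ e ∈ cut s t S x, φ e = 0 := by
  have h1 : ∑ v ∈ univ.filter (fun v => x v = true),
      ∑ e ∈ S, ((if s e = v then φ e else 0) + (if t e = v then φ e else 0)) = 0 :=
    Finset.sum_eq_zero fun v hv => h v (by simpa using hv)
  rw [Finset.sum_comm] at h1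
  refine Eq.trans ?_ h1
  unfold cut
  rw [Finset.sum_filter]
  refine Finset.sum_congr rfl fun e _ => ?_
  rw [Finset.sum_add_distrib, Finset.sum_ite_eq, Finset.sum_ite_eq]
  simp only [Finset.mem_filter, Finset.mem_univ, true_and]
  cases x (s e) <;> cases x (t e) <;> simp [addF]

theorem quot_cut {s t : E → V} {S S' : Finset E} {f : V → V} (hS : S' ⊆ S)
    (hf : ∀ e ∈ S, e ∉ S' → f (s e) = f (t e)) (x : V → Bool) :
    cut (fun e => f (s e)) (fun e => f (t e)) S' x = cut s t S (fun v => x (f v)) := by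
  ext e
  simp only [cut, Finset.mem_filter]
  constructor
  · rintro ⟨h1, h2⟩; exact ⟨hS h1, h2⟩
  · rintro ⟨h1, h2⟩
    refine ⟨?_, h2⟩
    by_contra h3
    exact h2 (by rw [hf e h1 h3])

theorem quot_n1 {s t : E → V} {S S' : Finset E} {f : V → V} (hS : S' ⊆ S)
    (hf : ∀ e ∈ S, e ∉ S' → f (s e) = f (t e)) (h : N1 s t S) :
    N1 (fun e => f (s e)) (fun e => f (t e)) S' := by
  intro x
  rw [quot_cut hS hf]
  exact h _

theorem odd_iff_cut (s t : E → V) (S : Finset E) (v : V) :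
    v ∈ odd s t S ↔ (cut s t S (fun u => decide (u = v))).card % 2 = 1 := by
  rw [← parity]
  by_cases h : v ∈ odd s t S
  · have : (odd s t S).filter (fun u => decide (u = v) = true) = {v} := by
      ext u; simp only [Finset.mem_filter, decide_eq_true_eq, Finset.mem_singleton]
      constructor
      · rintro ⟨_, h⟩; exact h
      · rintro rfl; exact ⟨h, rfl⟩
    rw [this]; simp [h]
  · have : (odd s t S).filter (fun u => decide (u = v) = true) = ∅ := by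
      ext u; simp only [Finset.mem_filter, decide_eq_true_eq, Finset.notMem_empty, iff_false]
      rintro ⟨h1, rfl⟩; exact h h1
    rw [this]; simp [h]

theorem quot_odd {s t : E → V} {S S' : Finset E} {f : V → V} (hS : S' ⊆ S)
    (hf : ∀ e ∈ S, e ∉ S' → f (s e) = f (t e)) :
    odd (fun e => f (s e)) (fun e => f (t e)) S' ⊆ (odd s t S).image f := by
  intro v hv
  rw [odd_iff_cut, quot_cut hS hf, ← parity] at hv
  have : ((odd s t S).filter (fun u => decide (f u = v) = true)).Nonempty := by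
    rw [← Finset.card_pos]; omega
  obtain ⟨u, hu⟩ := this
  simp only [Finset.mem_filter, decide_eq_true_eq] at hu
  exact Finset.mem_image.2 ⟨u, hu.1, hu.2⟩

theorem quot_pq {s t : E → V} {S S' : Finset E} {f : V → V} (hS : S' ⊆ S)
    (hf : ∀ e ∈ S, e ∉ S' → f (s e) = f (t e))
    (h : PQ (fun e => f (s e)) (fun e => f (t e)) S') : PQ s t S := by
  obtain ⟨κ, h1, h2⟩ := h
  refine ⟨fun v => κ (f v), fun k => ?_, fun k l hkl => ?_⟩
  · rw [← h1 k, quot_cut hS hf]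
  · obtain ⟨e, he, hj⟩ := h2 k l hkl
    exact ⟨e, hS he, hj⟩

theorem pq_odd_pos {s t : E → V} {S : Finset E} {κ : V → Fin 10} (h : IsPQ s t S κ) (k : Fin 10) :
    1 ≤ ((odd s t S).filter (fun v => κ v = k)).card := by
  have h1 := parity s t S (fun v => decide (κ v = k))
  rw [h.1 k] at h1
  simp only [decide_eq_true_eq] at h1
  omega

theorem card_classes (A : Finset V) (κ : V → Fin 10) :
    A.card = ∑ k : Fin 10, (A.filter (fun v => κ v = k)).card :=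
  Finset.card_eq_sum_card_fiberwise (fun _ _ => Finset.mem_coe.2 (Finset.mem_univ _))

theorem pq_card {s t : E → V} {S : Finset E} (h : PQ s t S) : 10 ≤ (odd s t S).card := by
  obtain ⟨κ, h⟩ := h
  rw [card_classes _ κ]
  calc 10 = ∑ k : Fin 10, 1 := by simp
    _ ≤ _ := Finset.sum_le_sum fun k _ => pq_odd_pos h k

/-- The linear map given by the images of `(1, 0)` and `(0, 1)`. -/
def lin (p q : F) : F →+ F where
  toFun x := (if x.1 = 1 then p else 0) + (if x.2 = 1 then q else 0)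
  map_zero' := by simp
  map_add' := by revert p q; decide

theorem match2 (a b a' b' : F) (ha : a ≠ 0) (hb : b ≠ 0) (hab : a ≠ b) (ha' : a' ≠ 0)
    (hb' : b' ≠ 0) (hab' : a' ≠ b') :
    ∃ σ : F →+ F, (∀ x, x ≠ 0 → σ x ≠ 0) ∧ σ a = a' ∧ σ b = b' := by
  have h : ∀ a b a' b' : F, a ≠ 0 → b ≠ 0 → a ≠ b → a' ≠ 0 → b' ≠ 0 → a' ≠ b' →
      ∃ p q : F, (∀ x : F, x ≠ 0 →
        (if x.1 = 1 then p else 0) + (if x.2 = 1 then q else 0) ≠ 0) ∧
        (if a.1 = 1 then p else 0) + (if a.2 = 1 then q else 0) = a' ∧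
        (if b.1 = 1 then p else 0) + (if b.2 = 1 then q else 0) = b' := by decide
  obtain ⟨p, q, h1, h2, h3⟩ := h a b a' b' ha hb hab ha' hb' hab'
  exact ⟨lin p q, h1, h2, h3⟩

theorem exists_ne (a : F) (ha : a ≠ 0) : ∃ b : F, b ≠ 0 ∧ a ≠ b := by revert a; decide

theorem match1 (a a' : F) (ha : a ≠ 0) (ha' : a' ≠ 0) :
    ∃ σ : F →+ F, (∀ x, x ≠ 0 → σ x ≠ 0) ∧ σ a = a' := by
  obtain ⟨b, hb, hab⟩ := exists_ne a ha
  obtain ⟨b', hb', hab'⟩ := exists_ne a' ha'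
  obtain ⟨σ, h1, h2, _⟩ := match2 a b a' b' ha hb hab ha' hb' hab'
  exact ⟨σ, h1, h2⟩

theorem pat_exists (y a0 a1 a2 : F) (hy : y ≠ 0) (h0 : a0 ≠ 0) (h1 : a1 ≠ 0) (h2 : a2 ≠ 0)
    (h : y + (a0 + a1 + a2) = 0) : ∃ p, Pat p y a0 a1 a2 := by
  have h' : ∀ y a0 a1 a2 : F, y ≠ 0 → a0 ≠ 0 → a1 ≠ 0 → a2 ≠ 0 → y + (a0 + a1 + a2) = 0 →
      (a0 = y ∧ a1 = a2 ∧ a1 ≠ y) ∨ (a1 = y ∧ a0 = a2 ∧ a0 ≠ y) ∨ (a2 = y ∧ a0 = a1 ∧ a0 ≠ y) ∨
      (a0 = y ∧ a1 = y ∧ a2 = y) := by decide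
  rcases h' y a0 a1 a2 hy h0 h1 h2 h with h | h | h | h
  · exact ⟨0, h⟩
  · exact ⟨1, h⟩
  · exact ⟨2, h⟩
  · exact ⟨3, h⟩

theorem pat_match (p : Fin 4) (y a0 a1 a2 y' a0' a1' a2' : F) (h : Pat p y a0 a1 a2)
    (h' : Pat p y' a0' a1' a2') (hy : y ≠ 0) (h0 : a0 ≠ 0) (h1 : a1 ≠ 0) (h2 : a2 ≠ 0)
    (hy' : y' ≠ 0) (h0' : a0' ≠ 0) (h1' : a1' ≠ 0) (h2' : a2' ≠ 0) :
    ∃ σ : F →+ F, (∀ x, x ≠ 0 → σ x ≠ 0) ∧ σ y = y' ∧ σ a0 = a0' ∧ σ a1 = a1' ∧ σ a2 = a2' := by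
  match p, h, h' with
  | 0, ⟨e1, e2, e3⟩, ⟨f1, f2, f3⟩ =>
    subst e1 e2 f1 f2
    obtain ⟨σ, g1, g2, g3⟩ := match2 a0 a1 a0' a1' h0 h1 (Ne.symm e3) h0' h1' (Ne.symm f3)
    exact ⟨σ, g1, g2, g2, g3, g3⟩
  | 1, ⟨e1, e2, e3⟩, ⟨f1, f2, f3⟩ =>
    subst e1 e2 f1 f2
    obtain ⟨σ, g1, g2, g3⟩ := match2 a1 a0 a1' a0' h1 h0 (Ne.symm e3) h1' h0' (Ne.symm f3)
    exact ⟨σ, g1, g2, g3, g2, g3⟩
  | 2, ⟨e1, e2, e3⟩, ⟨f1, f2, f3⟩ =>
    subst e1 e2 f1 f2
    obtain ⟨σ, g1, g2, g3⟩ := match2 a2 a0 a2' a0' h2 h0 (Ne.symm e3) h2' h0' (Ne.symm f3)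
    exact ⟨σ, g1, g2, g3, g3, g2⟩
  | 3, ⟨e1, e2, e3⟩, ⟨f1, f2, f3⟩ =>
    obtain ⟨σ, g1, g2⟩ := match1 y y' hy hy'
    exact ⟨σ, g1, g2, by rw [e1, g2, f1], by rw [e2, g2, f2], by rw [e3, g2, f3]⟩

end Pool.Agent.TH362.TF
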