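import Mathlib.Algebra.BigOperators.Group.Finset.Lemmas
import Mathlib.Tactic.Abel
import Mathlib.Tactic.Tauto
import Pool.Agent.H16.FV.L.Stm

/-!
Parallel edges and triangles at vertices of degree three in a minimal counterexample.
-/

set_option autoImplicit false

namespace Pool.Agent.TH362.TF

open Finset

variable {V E : Type} [Fintype V] [DecidableEq V] [DecidableEq E]

namespace Cub

/-- the sum of the values at `v` -/
def cs (s t : E → V) (S : Finset E) (φ : E → F) (v : V) : F :=
  ∑ e ∈ S, ((if s e = v then φ e else 0) + (if t e = v then φ e else 0))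

lemma add_self (a : F) : a + a = 0 := by revert a; decide

lemma cs_erase {s t : E → V} {S : Finset E} {e : E} (he : e ∈ S) (φ : E → F) (v : V) :
    cs s t S φ v = ((if s e = v then φ e else 0) + (if t e = v then φ e else 0)) +
      cs s t (S.erase e) φ v := by
  unfold cs
  rw [← add_sum_erase S _ he]

lemma deg_erase {s t : E → V} {S : Finset E} {e : E} (he : e ∈ S) (v : V) :
    deg s t S v = ((if s e = v then 1 else 0) + (if t e = v then 1 else 0)) +
      deg s t (S.erase e) v := by
  unfold deg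
  rw [← add_sum_erase S _ he]

lemma cs_congr {s t : E → V} {S : Finset E} {φ ψ : E → F} (h : ∀ e ∈ S, φ e = ψ e) (v : V) :
    cs s t S φ v = cs s t S ψ v := by
  unfold cs
  exact sum_congr rfl fun e he => by rw [h e he]

/-- a vertex of degree one -/
lemma cs_of_deg_one {s t : E → V} {S : Finset E} {v : V} (h : deg s t S v = 1) :
    ∃ g ∈ S, ∀ φ : E → F, cs s t S φ v = φ g := by
  have hex : ∃ g ∈ S, ((if s g = v then 1 else 0) + (if t g = v then 1 else 0)) ≠ 0 := by
    by_contra hcon
    push Not at hcon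
    unfold deg at h
    rw [sum_eq_zero hcon] at h
    exact absurd h (by norm_num)
  obtain ⟨g, hg, hgv⟩ := hex
  refine ⟨g, hg, fun φ => ?_⟩
  rw [deg_erase hg] at h
  have h1 : deg s t (S.erase g) v = 0 := by omega
  have h2 : cs s t (S.erase g) φ v = 0 := by
    unfold cs
    apply sum_eq_zero
    intro x hx
    unfold deg at h1
    have h3 := (sum_eq_zero_iff.1 h1) x hx
    by_cases ha : s x = v <;> by_cases hb : t x = v <;> simp [ha, hb] at h3 ⊢
  rw [cs_erase hg, h2, add_zero]
  rw [h1, add_zero] at h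
  by_cases ha : s g = v <;> by_cases hb : t g = v <;> simp [ha, hb] at h ⊢

lemma ends_at {s t : E → V} {u v : V} {e : E} (h : Ends s t u v e) (huv : u ≠ v) (φ : E → F)
    (w : V) : ((if s e = w then φ e else 0) + (if t e = w then φ e else 0)) =
      if w = u ∨ w = v then φ e else 0 := by
  rcases h with ⟨h1, h2⟩ | ⟨h1, h2⟩ <;> rw [h1, h2] <;>
    by_cases h3 : w = u <;> by_cases h4 : w = v
  all_goals first
    | (exact absurd (h3.symm.trans h4) huv)
    | (simp [h3, h4, huv, huv.symm, Ne.symm h3, Ne.symm h4])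
    | (simp [h3, h4, huv, huv.symm])
    | (simp [h3, h4, Ne.symm h3])
    | (simp [h3, h4, Ne.symm h4])

lemma ends_deg {s t : E → V} {u v : V} {e : E} (h : Ends s t u v e) (huv : u ≠ v)
    (w : V) : ((if s e = w then 1 else 0) + (if t e = w then 1 else 0)) =
      if w = u ∨ w = v then 1 else 0 := by
  rcases h with ⟨h1, h2⟩ | ⟨h1, h2⟩ <;> rw [h1, h2] <;>
    by_cases h3 : w = u <;> by_cases h4 : w = v
  all_goals first
    | (exact absurd (h3.symm.trans h4) huv)
    | (simp [h3, h4, huv, huv.symm, Ne.symm h3, Ne.symm h4])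
    | (simp [h3, h4, huv, huv.symm])
    | (simp [h3, h4, Ne.symm h3])
    | (simp [h3, h4, Ne.symm h4])

/-! quotients -/

lemma q_cut {s t : E → V} {S S' : Finset E} {f : V → V} (hS : S' ⊆ S)
    (hf : ∀ e ∈ S, e ∉ S' → f (s e) = f (t e)) (x : V → Bool) :
    cut (fun e => f (s e)) (fun e => f (t e)) S' x = cut s t S (fun v => x (f v)) := by
  unfold cut
  ext e
  simp only [mem_filter]
  constructor
  · rintro ⟨h1, h2⟩
    exact ⟨hS h1, h2⟩
  · rintro ⟨h1, h2⟩
    refine ⟨?_, h2⟩
    by_contra h3
    exact h2 (by rw [hf e h1 h3])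

lemma fib_sum {M : Type} [AddCommMonoid M] (f : V → V) (w y : V) (m : M) :
    ∑ v ∈ univ.filter (fun v => f v = w), (if y = v then m else 0) =
      if f y = w then m else 0 := by
  rw [sum_ite_eq]
  simp

lemma cons_fib {s t : E → V} {S : Finset E} {f : V → V} {φ : E → F} {w : V}
    (h : Cons (fun e => f (s e)) (fun e => f (t e)) S φ w) :
    ∑ v ∈ univ.filter (fun v => f v = w), cs s t S φ v = 0 := by
  unfold Cons at h
  unfold cs
  rw [sum_comm]
  refine Eq.trans ?_ h
  apply sum_congr rfl
  intro e _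
  rw [sum_add_distrib, fib_sum, fib_sum]

lemma deg_fib (s t : E → V) (S : Finset E) (f : V → V) (w : V) :
    deg (fun e => f (s e)) (fun e => f (t e)) S w =
      ∑ v ∈ univ.filter (fun v => f v = w), deg s t S v := by
  unfold deg
  rw [sum_comm]
  apply sum_congr rfl
  intro e _
  rw [sum_add_distrib, fib_sum, fib_sum]

lemma q_odd {s t : E → V} {S S' : Finset E} {f : V → V} (hS : S' ⊆ S)
    (hf : ∀ e ∈ S, e ∉ S' → f (s e) = f (t e)) :
    odd (fun e => f (s e)) (fun e => f (t e)) S' ⊆ (odd s t S).image f := by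
  intro w hw
  unfold odd at hw
  rw [mem_filter] at hw
  -- the degree with respect to `S`
  have h1 : Odd (deg (fun e => f (s e)) (fun e => f (t e)) S w) := by
    have h2 : deg (fun e => f (s e)) (fun e => f (t e)) S w =
        (∑ e ∈ S \ S', ((if f (s e) = w then 1 else 0) + (if f (t e) = w then 1 else 0))) +
          deg (fun e => f (s e)) (fun e => f (t e)) S' w := by
      unfold deg
      rw [sum_sdiff hS]
    rw [h2]
    apply Even.add_odd _ hw.2
    apply Finset.even_sum
    intro e he
    rw [mem_sdiff] at he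
    rw [hf e he.1 he.2]
    exact ⟨_, rfl⟩
  rw [deg_fib] at h1
  by_contra hcon
  have h3 : Even (∑ v ∈ univ.filter (fun v => f v = w), deg s t S v) := by
    apply Finset.even_sum
    intro v hv
    rw [mem_filter] at hv
    by_contra h4
    apply hcon
    rw [mem_image]
    exact ⟨v, by unfold odd; rw [mem_filter]; exact ⟨mem_univ _, Nat.not_even_iff_odd.1 h4⟩, hv.2⟩
  exact (Nat.not_even_iff_odd.2 h1) h3

lemma q_pq {s t : E → V} {S S' : Finset E} {f : V → V} (hS : S' ⊆ S)
    (hf : ∀ e ∈ S, e ∉ S' → f (s e) = f (t e))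
    (h : PQ (fun e => f (s e)) (fun e => f (t e)) S') : PQ s t S := by
  obtain ⟨κ, h1, h2⟩ := h
  refine ⟨fun v => κ (f v), ?_, ?_⟩
  · intro k
    have := h1 k
    rw [q_cut hS hf] at this
    exact this
  · intro k l hkl
    obtain ⟨e, he, hj⟩ := h2 k l hkl
    exact ⟨e, hS he, hj⟩

/-- a proper quotient of a minimal counterexample has a flow -/
lemma red {s t : E → V} {S S' : Finset E} (h : MinC s t S) {f : V → V} (hS : S' ⊆ S)
    (hf : ∀ e ∈ S, e ∉ S' → f (s e) = f (t e)) (hlt : S'.card < S.card) :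
    NZ (fun e => f (s e)) (fun e => f (t e)) S' := by
  rcases h.ih (fun e => f (s e)) (fun e => f (t e)) S' hlt
    (fun x => by rw [q_cut hS hf]; exact h.n1 _)
    (((card_le_card (q_odd hS hf)).trans card_image_le).trans h.odd16) with h1 | h1
  · exact h1
  · exact absurd (q_pq hS hf h1) h.pq

/-- no loop at a vertex of degree three -/
lemma noloop3 {s t : E → V} {S : Finset E} (h : MinC s t S) {v : V} {e : E}
    (hv : deg s t S v = 3) (he : e ∈ S) (h1 : Ends s t v v e) : False := by
  have hs : s e = v := by rcases h1 with ⟨a, -⟩ | ⟨a, -⟩ <;> exact a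
  have ht : t e = v := by rcases h1 with ⟨-, a⟩ | ⟨-, a⟩ <;> exact a
  rw [deg_erase he, hs, ht] at hv
  have h2 : deg s t (S.erase e) v = 1 := by
    simp at hv
    omega
  have hdeg := h2
  obtain ⟨g, hg, -⟩ := cs_of_deg_one h2
  apply h.n1 (fun w => decide (w = v))
  rw [card_eq_one]
  have hpt : ∀ x ∈ S.erase e, decide (s x = v) ≠ decide (t x = v) ↔
      ((if s x = v then 1 else 0) + (if t x = v then 1 else 0)) = 1 := by
    intro x _
    by_cases ha : s x = v <;> by_cases hb : t x = v <;> simp [ha, hb]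
  -- the cut is the set of the edges contributing one to the degree
  have hsum : ∑ x ∈ S.erase e, ((if s x = v then 1 else 0) + (if t x = v then 1 else 0)) = 1 := by
    have := h2; unfold deg at this; exact this
  have hex : ∃ x ∈ S.erase e, ((if s x = v then 1 else 0) + (if t x = v then 1 else 0)) ≠ 0 := by
    by_contra hcon
    push Not at hcon
    rw [sum_eq_zero hcon] at hsum
    exact absurd hsum (by norm_num)
  obtain ⟨x, hx, hx0⟩ := hex
  rw [← add_sum_erase _ _ hx] at hsum
  have hx1 : ((if s x = v then 1 else 0) + (if t x = v then 1 else 0)) = 1 := by omega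
  have hrest : ∑ y ∈ (S.erase e).erase x,
      ((if s y = v then 1 else 0) + (if t y = v then 1 else 0)) = 0 := by omega
  refine ⟨x, ?_⟩
  ext y
  unfold cut
  rw [mem_filter, mem_singleton]
  constructor
  · rintro ⟨hy, hne⟩
    by_contra hyx
    have hye : y ≠ e := by
      rintro rfl
      apply hne
      rw [hs, ht]
    have h3 := (sum_eq_zero_iff.1 hrest) y (mem_erase.2 ⟨hyx, mem_erase.2 ⟨hye, hy⟩⟩)
    have h4 := (hpt y (mem_erase.2 ⟨hye, hy⟩)).1 hne
    omega
  · rintro rfl
    exact ⟨(mem_erase.1 hx).2, (hpt y hx).2 hx1⟩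

lemma split2 (p : F) (hp : p ≠ 0) : ∃ q r : F, q ≠ 0 ∧ r ≠ 0 ∧ q + r + p = 0 := by
  revert p; decide

end Cub

open Cub

theorem MinC.nopar {s t : E → V} {S : Finset E} (h : MinC s t S) {u v : V} {e e' : E}
    (hu : deg s t S u = 3) (hv : deg s t S v = 3) (he : e ∈ S) (he' : e' ∈ S) (hee : e ≠ e')
    (h1 : Ends s t u v e) (h2 : Ends s t u v e') : False := by
  by_cases huv : u = v
  · subst huv
    exact noloop3 h hu he h1
  have he'2 : e' ∈ S.erase e := mem_erase.2 ⟨hee.symm, he'⟩
  set S' := (S.erase e).erase e' with hS'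
  have hsub : S' ⊆ S := (erase_subset _ _).trans (erase_subset _ _)
  have hcard : S'.card < S.card :=
    (card_erase_lt_of_mem he'2).trans (card_erase_lt_of_mem he)
  let f : V → V := fun w => if w = v then u else w
  have hfu : f u = u := by simp only [f]; split_ifs <;> rfl
  have hfv : f v = u := by simp [f]
  have hfw : ∀ w, w ≠ v → f w = w := fun w hw => by simp [f, hw]
  have hends : ∀ x, Ends s t u v x → f (s x) = f (t x) := by
    rintro x (⟨a, b⟩ | ⟨a, b⟩) <;> rw [a, b, hfu, hfv]
  obtain ⟨φ', hnz, hcons⟩ := red h (f := f) hsub (fun x hx hx' => by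
    by_cases hxe : x = e
    · rw [hxe]; exact hends e h1
    · by_cases hxe' : x = e'
      · rw [hxe']; exact hends e' h2
      · exact absurd (mem_erase.2 ⟨hxe', mem_erase.2 ⟨hxe, hx⟩⟩) hx') hcard
  -- degrees
  have hdeg : ∀ w, deg s t S w = (if w = u ∨ w = v then 1 else 0) +
      ((if w = u ∨ w = v then 1 else 0) + deg s t S' w) := by
    intro w
    rw [deg_erase he, deg_erase he'2, ends_deg h1 huv, ends_deg h2 huv]
  have hdu : deg s t S' u = 1 := by
    have := hdeg u
    simp at this
    omega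
  obtain ⟨g, hg, hgu⟩ := cs_of_deg_one hdu
  -- conservation in the quotient
  have hcu : cs s t S' φ' u + cs s t S' φ' v = 0 := by
    have h3 := cons_fib (hcons u)
    have h4 : univ.filter (fun w => f w = u) = {u, v} := by
      ext w
      simp only [mem_filter, mem_univ, true_and, mem_insert, mem_singleton]
      constructor
      · intro hw
        by_cases hwv : w = v
        · exact Or.inr hwv
        · rw [hfw w hwv] at hw; exact Or.inl hw
      · rintro (rfl | rfl)
        · exact hfu
        · exact hfv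
    rw [h4, sum_pair huv] at h3
    exact h3
  have hcw : ∀ w, w ≠ u → w ≠ v → cs s t S' φ' w = 0 := by
    intro w hwu hwv
    have h3 := cons_fib (hcons w)
    have h4 : univ.filter (fun x => f x = w) = {w} := by
      ext x
      simp only [mem_filter, mem_univ, true_and, mem_singleton]
      constructor
      · intro hx
        by_cases hxv : x = v
        · rw [hxv, hfv] at hx; exact absurd hx.symm hwu
        · rw [hfw x hxv] at hx; exact hx
      · rintro rfl
        exact hfw x hwv
    rw [h4, sum_singleton] at h3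
    exact h3
  set p := cs s t S' φ' u with hp
  have hp0 : p ≠ 0 := by
    rw [hp, hgu]; exact hnz g hg
  have hpv : cs s t S' φ' v = p := by
    have h3 := add_self p
    calc cs s t S' φ' v = (p + p) + cs s t S' φ' v := by rw [h3, zero_add]
      _ = p + (p + cs s t S' φ' v) := by rw [add_assoc]
      _ = p := by rw [hcu, add_zero]
  obtain ⟨q, r, hq, hr, hqr⟩ := split2 p hp0
  apply h.nz
  let φ : E → F := fun x => if x = e then q else if x = e' then r else φ' x
  have hφe : φ e = q := by simp [φ]
  have hφe' : φ e' = r := by simp [φ, hee.symm]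
  have hφ : ∀ x ∈ S', φ x = φ' x := by
    intro x hx
    rw [hS', mem_erase, mem_erase] at hx
    simp [φ, hx.1, hx.2.1]
  refine ⟨φ, ?_, ?_⟩
  · intro x hx
    by_cases hxe : x = e
    · rw [hxe, hφe]; exact hq
    · by_cases hxe' : x = e'
      · rw [hxe', hφe']; exact hr
      · have hx' : x ∈ S' := mem_erase.2 ⟨hxe', mem_erase.2 ⟨hxe, hx⟩⟩
        rw [hφ x hx']; exact hnz x hx'
  · intro w
    change cs s t S φ w = 0
    rw [cs_erase he, cs_erase he'2, ends_at h1 huv, ends_at h2 huv, hφe, hφe',
      cs_congr hφ]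
    by_cases hwu : w = u
    · rw [hwu, if_pos (Or.inl rfl), if_pos (Or.inl rfl), ← hp, ← add_assoc]
      exact hqr
    · by_cases hwv : w = v
      · rw [hwv, if_pos (Or.inr rfl), if_pos (Or.inr rfl), hpv, ← add_assoc]
        exact hqr
      · have h5 : ¬ (w = u ∨ w = v) := by tauto
        rw [if_neg h5, if_neg h5, hcw w hwu hwv]
        simp

theorem MinC.notri {s t : E → V} {S : Finset E} (h : MinC s t S) {a b c : V}
    (ha : deg s t S a = 3) (hb : deg s t S b = 3) (hc : deg s t S c = 3)
    (hab : Adj s t S a b) (hbc : Adj s t S b c) (hca : Adj s t S c a) : False := by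
  obtain ⟨e1, he1, E1⟩ := hab
  obtain ⟨e2, he2, E2⟩ := hbc
  obtain ⟨e3, he3, E3⟩ := hca
  by_cases hab : a = b
  · subst hab; exact noloop3 h ha he1 E1
  by_cases hbc : b = c
  · subst hbc; exact noloop3 h hb he2 E2
  by_cases hca : c = a
  · subst hca; exact noloop3 h hc he3 E3
  have n12 : e1 ≠ e2 := by
    rintro rfl
    rcases E1 with ⟨x1, x2⟩ | ⟨x1, x2⟩ <;> rcases E2 with ⟨y1, y2⟩ | ⟨y1, y2⟩
    · exact hab (x1.symm.trans y1)
    · exact hca (y1.symm.trans x1)
    · exact hca (y2.symm.trans x2)
    · exact hbc (x1.symm.trans y1)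
  have n13 : e1 ≠ e3 := by
    rintro rfl
    rcases E1 with ⟨x1, x2⟩ | ⟨x1, x2⟩ <;> rcases E3 with ⟨y1, y2⟩ | ⟨y1, y2⟩
    · exact hca (y1.symm.trans x1)
    · exact hbc (x2.symm.trans y2)
    · exact hbc (x1.symm.trans y1)
    · exact hca (y2.symm.trans x2)
  have n23 : e2 ≠ e3 := by
    rintro rfl
    rcases E2 with ⟨x1, x2⟩ | ⟨x1, x2⟩ <;> rcases E3 with ⟨y1, y2⟩ | ⟨y1, y2⟩
    · exact hbc (x1.symm.trans y1)
    · exact hab (y1.symm.trans x1)
    · exact hab (y2.symm.trans x2)
    · exact hbc (x2.symm.trans y2)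
  have m2 : e2 ∈ S.erase e1 := mem_erase.2 ⟨n12.symm, he2⟩
  have m3 : e3 ∈ (S.erase e1).erase e2 :=
    mem_erase.2 ⟨n23.symm, mem_erase.2 ⟨n13.symm, he3⟩⟩
  set S' := ((S.erase e1).erase e2).erase e3 with hS'
  have hsub : S' ⊆ S := ((erase_subset _ _).trans (erase_subset _ _)).trans (erase_subset _ _)
  have hcard : S'.card < S.card :=
    ((card_erase_lt_of_mem m3).trans (card_erase_lt_of_mem m2)).trans (card_erase_lt_of_mem he1)
  let f : V → V := fun w => if w = b ∨ w = c then a else w
  have hfa : f a = a := by simp only [f]; split_ifs <;> rfl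
  have hfb : f b = a := by simp [f]
  have hfc : f c = a := by simp [f]
  have hfw : ∀ w, w ≠ b → w ≠ c → f w = w := fun w h1 h2 => by simp [f, h1, h2]
  have hmemS' : ∀ x ∈ S, x ≠ e1 → x ≠ e2 → x ≠ e3 → x ∈ S' := fun x hx h1 h2 h3 =>
    mem_erase.2 ⟨h3, mem_erase.2 ⟨h2, mem_erase.2 ⟨h1, hx⟩⟩⟩
  obtain ⟨φ', hnz, hcons⟩ := red h (f := f) hsub (fun x hx hx' => by
    by_cases h1 : x = e1
    · rw [h1]
      rcases E1 with ⟨x1, x2⟩ | ⟨x1, x2⟩ <;> rw [x1, x2, hfa, hfb]
    · by_cases h2 : x = e2
      · rw [h2]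
        rcases E2 with ⟨x1, x2⟩ | ⟨x1, x2⟩ <;> rw [x1, x2, hfb, hfc]
      · by_cases h3 : x = e3
        · rw [h3]
          rcases E3 with ⟨x1, x2⟩ | ⟨x1, x2⟩ <;> rw [x1, x2, hfc, hfa]
        · exact absurd (hmemS' x hx h1 h2 h3) hx') hcard
  have hdeg : ∀ w, deg s t S w = (if w = a ∨ w = b then 1 else 0) +
      ((if w = b ∨ w = c then 1 else 0) + ((if w = c ∨ w = a then 1 else 0) +
        deg s t S' w)) := by
    intro w
    rw [deg_erase he1, deg_erase m2, deg_erase m3, ends_deg E1 hab, ends_deg E2 hbc,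
      ends_deg E3 hca]
  have hda : deg s t S' a = 1 := by
    have := hdeg a
    rw [if_pos (Or.inl rfl), if_neg (by push Not; exact ⟨hab, fun h => hca h.symm⟩),
      if_pos (Or.inr rfl)] at this
    omega
  have hdb : deg s t S' b = 1 := by
    have := hdeg b
    rw [if_pos (Or.inr rfl), if_pos (Or.inl rfl),
      if_neg (by push Not; exact ⟨hbc, fun h => hab h.symm⟩)] at this
    omega
  have hdc : deg s t S' c = 1 := by
    have := hdeg c
    rw [if_neg (by push Not; exact ⟨hca, fun h => hbc h.symm⟩), if_pos (Or.inr rfl),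
      if_pos (Or.inl rfl)] at this
    omega
  obtain ⟨ga, hga, hgau⟩ := cs_of_deg_one hda
  obtain ⟨gb, hgb, hgbu⟩ := cs_of_deg_one hdb
  obtain ⟨gc, hgc, hgcu⟩ := cs_of_deg_one hdc
  have hcu : cs s t S' φ' a + (cs s t S' φ' b + cs s t S' φ' c) = 0 := by
    have h3 := cons_fib (hcons a)
    have h4 : univ.filter (fun w => f w = a) = {a, b, c} := by
      ext w
      simp only [mem_filter, mem_univ, true_and, mem_insert, mem_singleton]
      constructor
      · intro hw
        by_cases hwb : w = b
        · exact Or.inr (Or.inl hwb)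
        · by_cases hwc : w = c
          · exact Or.inr (Or.inr hwc)
          · rw [hfw w hwb hwc] at hw; exact Or.inl hw
      · rintro (rfl | rfl | rfl)
        · exact hfa
        · exact hfb
        · exact hfc
    rw [h4, sum_insert (by
      rw [mem_insert, mem_singleton]; push Not; exact ⟨hab, fun h => hca h.symm⟩),
      sum_pair hbc] at h3
    exact h3
  have hcw : ∀ w, w ≠ a → w ≠ b → w ≠ c → cs s t S' φ' w = 0 := by
    intro w hwa hwb hwc
    have h3 := cons_fib (hcons w)
    have h4 : univ.filter (fun x => f x = w) = {w} := by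
      ext x
      simp only [mem_filter, mem_univ, true_and, mem_singleton]
      constructor
      · intro hx
        by_cases hxb : x = b
        · rw [hxb, hfb] at hx; exact absurd hx.symm hwa
        · by_cases hxc : x = c
          · rw [hxc, hfc] at hx; exact absurd hx.symm hwa
          · rw [hfw x hxb hxc] at hx; exact hx
      · rintro rfl
        exact hfw x hwb hwc
    rw [h4, sum_singleton] at h3
    exact h3
  set p := cs s t S' φ' a with hp
  set q := cs s t S' φ' b with hq
  set r := cs s t S' φ' c with hr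
  have hp0 : p ≠ 0 := by rw [hp, hgau]; exact hnz ga hga
  have hq0 : q ≠ 0 := by rw [hq, hgbu]; exact hnz gb hgb
  have hr0 : r ≠ 0 := by rw [hr, hgcu]; exact hnz gc hgc
  apply h.nz
  let φ : E → F := fun x => if x = e1 then r else if x = e2 then p else if x = e3 then q else φ' x
  have hφ1 : φ e1 = r := by simp [φ]
  have hφ2 : φ e2 = p := by simp [φ, n12.symm]
  have hφ3 : φ e3 = q := by simp [φ, n13.symm, n23.symm]
  have hφ : ∀ x ∈ S', φ x = φ' x := by
    intro x hx
    rw [hS', mem_erase, mem_erase, mem_erase] at hx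
    simp [φ, hx.1, hx.2.1, hx.2.2.1]
  refine ⟨φ, ?_, ?_⟩
  · intro x hx
    by_cases h1 : x = e1
    · rw [h1, hφ1]; exact hr0
    · by_cases h2 : x = e2
      · rw [h2, hφ2]; exact hp0
      · by_cases h3 : x = e3
        · rw [h3, hφ3]; exact hq0
        · have hx' := hmemS' x hx h1 h2 h3
          rw [hφ x hx']; exact hnz x hx'
  · intro w
    change cs s t S φ w = 0
    rw [cs_erase he1, cs_erase m2, cs_erase m3, ends_at E1 hab, ends_at E2 hbc, ends_at E3 hca,
      hφ1, hφ2, hφ3, cs_congr hφ]
    by_cases hwa : w = a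
    · rw [hwa, if_pos (Or.inl rfl), if_neg (by push Not; exact ⟨hab, fun h => hca h.symm⟩),
        if_pos (Or.inr rfl), ← hp, zero_add, ← hcu]
      abel
    · by_cases hwb : w = b
      · rw [hwb, if_pos (Or.inr rfl), if_pos (Or.inl rfl),
          if_neg (by push Not; exact ⟨hbc, fun h => hab h.symm⟩), ← hq, zero_add, ← hcu]
        abel
      · by_cases hwc : w = c
        · rw [hwc, if_neg (by push Not; exact ⟨hca, fun h => hbc h.symm⟩), if_pos (Or.inr rfl),
            if_pos (Or.inl rfl), ← hr, zero_add, ← hcu]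

        · rw [if_neg (by tauto), if_neg (by tauto), if_neg (by tauto), hcw w hwa hwb hwc]
          simp

end Pool.Agent.TH362.TF
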