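import Mathlib.Data.ZMod.Basic
import Mathlib.Data.Fintype.Card
import Mathlib.Data.Fintype.Prod
import Mathlib.Data.Fintype.Pi
import Mathlib.Algebra.BigOperators.Group.Finset.Basic
import Mathlib.Algebra.BigOperators.Group.Finset.Piecewise
import Mathlib.Algebra.Order.BigOperators.Group.Finset
import Mathlib.Algebra.Group.Nat.Even
import Mathlib.Algebra.Ring.Parity
import Mathlib.Tactic.Linarith
import Mathlib.Tactic.Ring
import Mathlib.Tactic.FinCases
import Mathlib.Tactic.IntervalCases

/-!
Finite multigraphs on a fixed vertex type `V` and a fixed edge type `E`: the ends of the edge `e`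
are `s e` and `t e` (the orientation plays no role), and the edge set is `S : Finset E`.
-/

set_option autoImplicit false

namespace Pool.Agent.TH362.TF

open Finset

/-- The group of the flows. -/
abbrev F := ZMod 2 × ZMod 2

section
variable {V E : Type} [Fintype V] [DecidableEq V] [DecidableEq E]

/-- Conservation at the vertex `v` (a loop contributes `φ e + φ e = 0`). -/
def Cons (s t : E → V) (S : Finset E) (φ : E → F) (v : V) : Prop :=
  ∑ e ∈ S, ((if s e = v then φ e else 0) + (if t e = v then φ e else 0)) = 0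

/-- The graph has a nowhere-zero flow with values in `F`. -/
def NZ (s t : E → V) (S : Finset E) : Prop :=
  ∃ φ : E → F, (∀ e ∈ S, φ e ≠ 0) ∧ ∀ v, Cons s t S φ v

/-- The degree (a loop counts twice). -/
def deg (s t : E → V) (S : Finset E) (v : V) : ℕ :=
  ∑ e ∈ S, ((if s e = v then 1 else 0) + (if t e = v then 1 else 0))

/-- The edge cut given by `x`. -/
def cut (s t : E → V) (S : Finset E) (x : V → Bool) : Finset E :=
  S.filter (fun e => x (s e) ≠ x (t e))

/-- No edge cut has exactly one edge. -/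
def N1 (s t : E → V) (S : Finset E) : Prop := ∀ x : V → Bool, (cut s t S x).card ≠ 1

/-- The set of the vertices of odd degree. -/
def odd (s t : E → V) (S : Finset E) : Finset V :=
  univ.filter (fun v => Odd (deg s t S v))

/-- The neighbours in the Petersen graph: outer cycle `0,1,2,3,4`, spokes `i, i + 5`, inner
cycle `5,7,9,6,8`. -/
def nb (k : Fin 10) (j : Fin 3) : Fin 10 :=
  match k, j with
  | 0, 0 => 1 | 0, 1 => 4 | 0, 2 => 5
  | 1, 0 => 2 | 1, 1 => 0 | 1, 2 => 6
  | 2, 0 => 3 | 2, 1 => 1 | 2, 2 => 7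
  | 3, 0 => 4 | 3, 1 => 2 | 3, 2 => 8
  | 4, 0 => 0 | 4, 1 => 3 | 4, 2 => 9
  | 5, 0 => 7 | 5, 1 => 8 | 5, 2 => 0
  | 6, 0 => 8 | 6, 1 => 9 | 6, 2 => 1
  | 7, 0 => 9 | 7, 1 => 5 | 7, 2 => 2
  | 8, 0 => 5 | 8, 1 => 6 | 8, 2 => 3
  | 9, 0 => 6 | 9, 1 => 7 | 9, 2 => 4

/-- Adjacency in the Petersen graph. -/
def padj (k l : Fin 10) : Bool := nb k 0 == l || (nb k 1 == l || nb k 2 == l)

/-- The edge `e` joins the classes `k` and `l` of `κ`. -/
def Joins (κ : V → Fin 10) (s t : E → V) (k l : Fin 10) (e : E) : Prop :=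
  (κ (s e) = k ∧ κ (t e) = l) ∨ (κ (s e) = l ∧ κ (t e) = k)

/-- The classes of `κ` form a Petersen graph: exactly three edges leave each class, and classes
that are adjacent in the Petersen graph are joined by an edge. -/
def IsPQ (s t : E → V) (S : Finset E) (κ : V → Fin 10) : Prop :=
  (∀ k, (cut s t S (fun v => decide (κ v = k))).card = 3) ∧
  ∀ k l, padj k l = true → ∃ e ∈ S, Joins κ s t k l e

/-- The graph has a Petersen quotient. -/
def PQ (s t : E → V) (S : Finset E) : Prop := ∃ κ : V → Fin 10, IsPQ s t S κ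

/-- A minimal counterexample to the theorem `N1 → (odd).card ≤ 16 → NZ ∨ PQ`. -/
structure MinC (s t : E → V) (S : Finset E) : Prop where
  n1 : N1 s t S
  odd16 : (odd s t S).card ≤ 16
  nz : ¬ NZ s t S
  pq : ¬ PQ s t S
  ih : ∀ (s' t' : E → V) (S' : Finset E), S'.card < S.card → N1 s' t' S' →
    (odd s' t' S').card ≤ 16 → NZ s' t' S' ∨ PQ s' t' S'

end

end Pool.Agent.TH362.TF
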