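import Pool.Agent.H16.FV.L.Basic

/-!
Reductions of a minimal counterexample: there are no loops, no cuts with at most three edges and
an edge on both sides, and no vertices of degree two.
-/

set_option autoImplicit false
namespace Pool.Agent.TH362.TF
open Finset

namespace Red

lemma add_self (a : F) : a + a = 0 := by
  revert a; decide

lemma eq_of_add {a b : F} (h : a + b = 0) : b = a := by
  revert a b; decide

section
variable {V E : Type} [Fintype V] [DecidableEq V] [DecidableEq E]

omit [Fintype V] [DecidableEq E] in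
/-- the contribution of the edge `e` at the vertex `v` -/
def tm (s t : E → V) (φ : E → F) (v : V) (e : E) : F :=
  (if s e = v then φ e else 0) + (if t e = v then φ e else 0)

omit [Fintype V] [DecidableEq E] in
lemma cons_iff (s t : E → V) (S : Finset E) (φ : E → F) (v : V) :
    Cons s t S φ v ↔ ∑ e ∈ S, tm s t φ v e = 0 := Iff.rfl

omit [Fintype V] [DecidableEq V] [DecidableEq E] in
lemma cut_not (s t : E → V) (S : Finset E) (x : V → Bool) :
    cut s t S (fun v => !x v) = cut s t S x := by
  unfold cut
  apply filter_congr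
  intro e _
  have : ∀ a b : Bool, (!a) ≠ (!b) ↔ a ≠ b := by decide
  exact this _ _

/-- a smaller quotient has a flow -/
lemma quot_nz {s t : E → V} {S : Finset E} (h : MinC s t S) (S' : Finset E) (f : V → V)
    (hS : S' ⊆ S) (hc : S'.card < S.card) (hf : ∀ e ∈ S, e ∉ S' → f (s e) = f (t e)) :
    NZ (fun e => f (s e)) (fun e => f (t e)) S' := by
  rcases h.ih (fun e => f (s e)) (fun e => f (t e)) S' hc (quot_n1 hS hf h.n1)
    (((card_le_card (quot_odd hS hf)).trans card_image_le).trans h.odd16) with h1 | h1
  · exact h1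
  · exact absurd (quot_pq hS hf h1) h.pq

/-- a flow of the quotient in which the side `x = true` is one vertex -/
lemma side {s t : E → V} {S : Finset E} (h : MinC s t S) (x : V → Bool) (e1 : E) (he1 : e1 ∈ S)
    (h1 : x (s e1) = true) (h2 : x (t e1) = true) :
    ∃ φ : E → F, (∀ e ∈ S, ¬ (x (s e) = true ∧ x (t e) = true) → φ e ≠ 0) ∧
      (∀ v, x v = false → Cons s t S φ v) ∧ ∑ e ∈ cut s t S x, φ e = 0 := by
  set S1 : Finset E := S.filter (fun e => ¬ (x (s e) = true ∧ x (t e) = true)) with hS1
  have hsub : S1 ⊆ S := filter_subset _ _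
  have hlt : S1.card < S.card := by
    apply card_lt_card
    refine ⟨hsub, fun hh => ?_⟩
    have := hh he1
    rw [hS1, mem_filter] at this
    exact this.2 ⟨h1, h2⟩
  obtain ⟨φ, hφ1, hφ2⟩ := quot_nz h S1 (fun v => if x v = true then s e1 else v) hsub hlt (by
    intro e he he'
    have : x (s e) = true ∧ x (t e) = true := by
      by_contra hh
      exact he' (mem_filter.2 ⟨he, hh⟩)
    simp only [this.1, this.2, if_true])
  have hcons : ∀ v, x v = false → Cons s t S φ v := by
    intro v hv
    have h3 := hφ2 v
    have key : ∀ u : V, ((if x u = true then s e1 else u) = v) ↔ u = v := by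
      intro u
      by_cases hu : x u = true
      · rw [if_pos hu]
        constructor
        · intro hh
          rw [← hh, h1] at hv
          exact absurd hv (by decide)
        · intro hh
          rw [hh, hv] at hu
          exact absurd hu (by decide)
      · rw [if_neg hu]
    rw [cons_iff] at h3 ⊢
    have h4 : ∑ e ∈ S1, tm (fun e => if x (s e) = true then s e1 else s e)
        (fun e => if x (t e) = true then s e1 else t e) φ v e = ∑ e ∈ S1, tm s t φ v e := by
      refine sum_congr rfl fun e _ => ?_
      unfold tm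
      simp only [key]
    rw [← h3, h4]
    symm
    apply sum_subset hsub
    intro e he he'
    have h5 : x (s e) = true ∧ x (t e) = true := by
      by_contra hh
      exact he' (mem_filter.2 ⟨he, hh⟩)
    unfold tm
    rw [if_neg, if_neg, add_zero]
    · intro hh
      rw [hh, hv] at h5
      exact absurd h5.2 (by decide)
    · intro hh
      rw [hh, hv] at h5
      exact absurd h5.1 (by decide)
  refine ⟨φ, ?_, hcons, ?_⟩
  · intro e he hh
    exact hφ1 e (mem_filter.2 ⟨he, hh⟩)
  · have h3 := flow_cut (s := s) (t := t) (S := S) (φ := φ) (fun v => !x v) (by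
      intro v hv
      exact hcons v (by simpa using hv))
    rw [← cut_not]
    exact h3

/-- two flows on a small cut can be matched -/
lemma matchC {C : Finset E} (h1 : C.card ≠ 1) (h3 : C.card ≤ 3) (φ1 φ2 : E → F)
    (n1 : ∀ c ∈ C, φ1 c ≠ 0) (n2 : ∀ c ∈ C, φ2 c ≠ 0) (s1 : ∑ c ∈ C, φ1 c = 0)
    (s2 : ∑ c ∈ C, φ2 c = 0) :
    ∃ σ : F →+ F, (∀ x, x ≠ 0 → σ x ≠ 0) ∧ ∀ c ∈ C, σ (φ2 c) = φ1 c := by
  have hc : C.card = 0 ∨ C.card = 2 ∨ C.card = 3 := by omega
  rcases hc with hc | hc | hc
  · rw [card_eq_zero] at hc
    subst hc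
    exact ⟨AddMonoidHom.id F, fun x hx => hx, fun c hc => absurd hc (notMem_empty _)⟩
  · obtain ⟨a, b, hab, rfl⟩ := card_eq_two.1 hc
    rw [sum_pair hab] at s1 s2
    have e1 := eq_of_add s1
    have e2 := eq_of_add s2
    obtain ⟨σ, hσ, hσ2⟩ := match1 (φ2 a) (φ1 a) (n2 a (by simp)) (n1 a (by simp))
    refine ⟨σ, hσ, fun c hc => ?_⟩
    rw [mem_insert, mem_singleton] at hc
    rcases hc with rfl | rfl
    · exact hσ2
    · rw [e1, e2]; exact hσ2
  · obtain ⟨a, b, c, hab, hac, hbc, rfl⟩ := card_eq_three.1 hc
    have e : ∀ φ : E → F, ∑ c ∈ ({a, b, c} : Finset E), φ c = φ a + (φ b + φ c) := by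
      intro φ
      rw [sum_insert (by simp [hab, hac]), sum_pair hbc]
    rw [e] at s1 s2
    have key : ∀ x y z : F, z ≠ 0 → x + (y + z) = 0 → x ≠ y ∧ z = x + y := by decide
    have k1 := key _ _ _ (n1 c (by simp)) s1
    have k2 := key _ _ _ (n2 c (by simp)) s2
    obtain ⟨σ, hσ, hσ2, hσ3⟩ := match2 (φ2 a) (φ2 b) (φ1 a) (φ1 b) (n2 a (by simp)) (n2 b (by simp))
      k2.1 (n1 a (by simp)) (n1 b (by simp)) k1.1
    refine ⟨σ, hσ, fun d hd => ?_⟩
    simp only [mem_insert, mem_singleton] at hd
    rcases hd with rfl | rfl | rfl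
    · exact hσ2
    · exact hσ3
    · rw [k2.2, k1.2, map_add, hσ2, hσ3]

end

end Red

open Red

variable {V E : Type} [Fintype V] [DecidableEq V] [DecidableEq E]

theorem MinC.noloop {s t : E → V} {S : Finset E} (h : MinC s t S) : ∀ e ∈ S, s e ≠ t e := by
  intro e he hst
  obtain ⟨φ, hφ1, hφ2⟩ := quot_nz h (S.erase e) (fun v => v) (erase_subset _ _)
    (card_erase_lt_of_mem he) (by
      intro e' he' hn
      have : e' = e := by
        by_contra hh
        exact hn (mem_erase.2 ⟨hh, he'⟩)
      rw [this]
      exact hst)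
  apply h.nz
  refine ⟨Function.update φ e (1, 0), ?_, ?_⟩
  · intro e' he'
    by_cases hh : e' = e
    · subst hh
      rw [Function.update_self]
      decide
    · rw [Function.update_of_ne hh]
      exact hφ1 e' (mem_erase.2 ⟨hh, he'⟩)
  · intro v
    have h3 := hφ2 v
    rw [cons_iff] at h3 ⊢
    rw [← add_sum_erase _ _ he]
    have h4 : tm s t (Function.update φ e (1, 0)) v e = 0 := by
      unfold tm
      rw [hst]
      exact add_self _
    rw [h4, zero_add, ← h3]
    refine sum_congr rfl fun e' he' => ?_
    unfold tm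
    rw [Function.update_of_ne (mem_erase.1 he').1]

theorem MinC.smallcut {s t : E → V} {S : Finset E} (h : MinC s t S) (x : V → Bool)
    (hx : (cut s t S x).card ≤ 3) :
    (∀ e ∈ S, ¬ (x (s e) = true ∧ x (t e) = true)) ∨
      (∀ e ∈ S, ¬ (x (s e) = false ∧ x (t e) = false)) := by
  by_contra hcon
  push Not at hcon
  obtain ⟨⟨e1, he1, h11, h12⟩, ⟨e2, he2, h21, h22⟩⟩ := hcon
  obtain ⟨φ1, n1, c1, s1⟩ := side h x e1 he1 h11 h12
  obtain ⟨φ2, n2, c2, s2⟩ := side h (fun v => !x v) e2 he2 (by simp [h21]) (by simp [h22])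
  rw [cut_not] at s2
  obtain ⟨σ, hσ, hσ2⟩ := matchC (h.n1 x) hx φ1 φ2 (by
      intro c hc
      rw [cut, mem_filter] at hc
      exact n1 c hc.1 (fun hh => hc.2 (hh.1.trans hh.2.symm))) (by
      intro c hc
      rw [cut, mem_filter] at hc
      exact n2 c hc.1 (fun hh => hc.2 (by
        have h5 := hh.1.trans hh.2.symm
        simpa using h5))) s1 s2
  apply h.nz
  refine ⟨fun e => if x (s e) = true ∧ x (t e) = true then σ (φ2 e) else φ1 e, ?_, ?_⟩
  · intro e he
    by_cases hh : x (s e) = true ∧ x (t e) = true
    · simp only [hh, and_self, if_true]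
      apply hσ
      apply n2 e he
      simp [hh.1]
    · simp only [if_neg hh]
      exact n1 e he hh
  · intro v
    cases hv : x v
    · have h5 := c1 v hv
      rw [cons_iff] at h5 ⊢
      rw [← h5]
      refine sum_congr rfl fun e _ => ?_
      unfold tm
      by_cases h6 : s e = v
      · have : ¬ (x (s e) = true ∧ x (t e) = true) := by rw [h6, hv]; simp
        simp only [if_neg this]
      · by_cases h7 : t e = v
        · have : ¬ (x (s e) = true ∧ x (t e) = true) := by rw [h7, hv]; simp
          simp only [if_neg this]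
        · simp only [if_neg h6, if_neg h7]
    · have h5 := c2 v (by simp [hv])
      rw [cons_iff] at h5 ⊢
      have h8 : ∑ e ∈ S, tm s t (fun e => if x (s e) = true ∧ x (t e) = true then σ (φ2 e)
          else φ1 e) v e = σ (∑ e ∈ S, tm s t φ2 v e) := by
        rw [map_sum]
        refine sum_congr rfl fun e he => ?_
        have h9 : x (s e) = true ∨ x (t e) = true → (if x (s e) = true ∧ x (t e) = true
            then σ (φ2 e) else φ1 e) = σ (φ2 e) := by
          intro hor
          by_cases hh : x (s e) = true ∧ x (t e) = true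
          · rw [if_pos hh]
          · rw [if_neg hh]
            refine (hσ2 e ?_).symm
            rw [cut, mem_filter]
            refine ⟨he, fun heq => hh ?_⟩
            rcases hor with h10 | h10
            · exact ⟨h10, heq ▸ h10⟩
            · exact ⟨heq ▸ h10, h10⟩
        unfold tm
        rw [map_add]
        congr 1
        · by_cases h6 : s e = v
          · simp only [if_pos h6]
            exact h9 (Or.inl (h6 ▸ hv))
          · simp only [if_neg h6, map_zero]
        · by_cases h6 : t e = v
          · simp only [if_pos h6]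
            exact h9 (Or.inr (h6 ▸ hv))
          · simp only [if_neg h6, map_zero]
      rw [h8, h5, map_zero]

theorem MinC.deg2 {s t : E → V} {S : Finset E} (h : MinC s t S) (v : V) : deg s t S v ≠ 2 := by
  intro hd
  have hcard : (S.filter (fun e => s e = v ∨ t e = v)).card = 2 := by
    rw [← hd, card_filter]
    unfold deg
    refine sum_congr rfl fun e he => ?_
    have := h.noloop e he
    by_cases h1 : s e = v
    · by_cases h2 : t e = v
      · exact absurd (h1.trans h2.symm) this
      · simp [h1, h2]
    · by_cases h2 : t e = v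
      · simp [h1, h2]
      · simp [h1, h2]
  obtain ⟨e, f, hef, hA⟩ := card_eq_two.1 hcard
  have heA : e ∈ S ∧ (s e = v ∨ t e = v) := by
    have : e ∈ S.filter (fun e => s e = v ∨ t e = v) := by rw [hA]; simp
    exact mem_filter.1 this
  have hfA : f ∈ S ∧ (s f = v ∨ t f = v) := by
    have : f ∈ S.filter (fun e => s e = v ∨ t e = v) := by rw [hA]; simp
    exact mem_filter.1 this
  have hoth : ∀ e' ∈ S, e' ≠ e → e' ≠ f → s e' ≠ v ∧ t e' ≠ v := by
    intro e' he' h1 h2
    by_contra hh
    have : e' ∈ S.filter (fun e => s e = v ∨ t e = v) := by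
      rw [mem_filter]
      refine ⟨he', ?_⟩
      by_contra h3
      push Not at h3
      exact hh h3
    rw [hA, mem_insert, mem_singleton] at this
    rcases this with h3 | h3
    · exact h1 h3
    · exact h2 h3
  obtain ⟨a, hav, hends⟩ : ∃ a, a ≠ v ∧ ((s e = v ∧ t e = a) ∨ (s e = a ∧ t e = v)) := by
    have hl := h.noloop e heA.1
    rcases heA.2 with h1 | h1
    · exact ⟨t e, fun hh => hl (h1.trans hh.symm), Or.inl ⟨h1, rfl⟩⟩
    · exact ⟨s e, fun hh => hl (hh.trans h1.symm), Or.inr ⟨rfl, h1⟩⟩
  obtain ⟨φ, hφ1, hφ2⟩ := quot_nz h (S.erase e) (fun u => if u = v then a else u)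
    (erase_subset _ _) (card_erase_lt_of_mem heA.1) (by
      intro e' he' hn
      have : e' = e := by
        by_contra hh
        exact hn (mem_erase.2 ⟨hh, he'⟩)
      rw [this]
      rcases hends with ⟨h1, h2⟩ | ⟨h1, h2⟩
      · simp [h1, h2]
      · simp [h1, h2])
  have hfe : f ∈ S.erase e := mem_erase.2 ⟨hef.symm, hfA.1⟩
  -- contribution of `f` at `v`
  have tmv : ∀ (e' : E) (ψ : E → F), e' ∈ S → (s e' = v ∨ t e' = v) → tm s t ψ v e' = ψ e' := by
    intro e' ψ he' h1
    have := h.noloop e' he'
    unfold tm
    rcases h1 with h1 | h1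
    · have h2 : t e' ≠ v := fun hh => this (h1.trans hh.symm)
      rw [if_pos h1, if_neg h2, add_zero]
    · have h2 : s e' ≠ v := fun hh => this (hh.trans h1.symm)
      rw [if_pos h1, if_neg h2, zero_add]
  have sumv : ∑ e' ∈ S.erase e, tm s t φ v e' = φ f := by
    rw [sum_eq_single_of_mem f hfe, tmv f φ hfA.1 hfA.2]
    intro e' he' hne
    have := hoth e' (mem_erase.1 he').2 (mem_erase.1 he').1 hne
    unfold tm
    rw [if_neg this.1, if_neg this.2, add_zero]
  have hupd : ∀ u, ∑ e' ∈ S.erase e, tm s t (Function.update φ e (φ f)) u e' =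
      ∑ e' ∈ S.erase e, tm s t φ u e' := by
    intro u
    refine sum_congr rfl fun e' he' => ?_
    unfold tm
    rw [Function.update_of_ne (mem_erase.1 he').1]
  apply h.nz
  refine ⟨Function.update φ e (φ f), ?_, ?_⟩
  · intro e' he'
    by_cases hh : e' = e
    · subst hh
      rw [Function.update_self]
      exact hφ1 f hfe
    · rw [Function.update_of_ne hh]
      exact hφ1 e' (mem_erase.2 ⟨hh, he'⟩)
  · intro u
    rw [cons_iff, ← add_sum_erase _ _ heA.1, hupd]
    by_cases huv : u = v
    · subst huv
      rw [sumv, tmv e _ heA.1 heA.2, Function.update_self]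
      exact add_self _
    by_cases hua : u = a
    · subst hua
      have h3 := hφ2 u
      rw [cons_iff] at h3
      have h4 : tm s t (Function.update φ e (φ f)) u e = φ f := by
        unfold tm
        rw [Function.update_self]
        rcases hends with ⟨h1, h2⟩ | ⟨h1, h2⟩
        · rw [h1, h2, if_neg (Ne.symm huv), if_pos rfl, zero_add]
        · rw [h1, h2, if_neg (Ne.symm huv), if_pos rfl, add_zero]
      rw [h4, ← sumv, ← sum_add_distrib, ← h3]
      refine sum_congr rfl fun e' _ => ?_
      have key : ∀ (w : V) (c : F), (if (if w = v then u else w) = u then c else 0) =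
          (if w = v then c else 0) + (if w = u then c else 0) := by
        intro w c
        by_cases hw : w = v
        · subst hw
          rw [if_pos rfl, if_pos rfl, if_pos rfl, if_neg (Ne.symm huv), add_zero]
        · rw [if_neg hw, if_neg hw, zero_add]
      unfold tm
      rw [key, key, add_comm (_ + _) (_ + _), add_add_add_comm,
        add_comm (if s e' = u then φ e' else 0), add_comm (if t e' = u then φ e' else 0)]
    · have h3 := hφ2 u
      rw [cons_iff] at h3
      have h4 : tm s t (Function.update φ e (φ f)) u e = 0 := by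
        unfold tm
        rcases hends with ⟨h1, h2⟩ | ⟨h1, h2⟩
        · rw [h1, h2, if_neg (Ne.symm huv), if_neg (Ne.symm hua), zero_add]
        · rw [h1, h2, if_neg (Ne.symm huv), if_neg (Ne.symm hua), zero_add]
      rw [h4, zero_add, ← h3]
      refine sum_congr rfl fun e' _ => ?_
      have key : ∀ (w : V), ((if w = v then a else w) = u) ↔ w = u := by
        intro w
        by_cases hw : w = v
        · rw [if_pos hw, hw]
          exact ⟨fun hh => absurd hh.symm hua, fun hh => absurd hh.symm huv⟩
        · rw [if_neg hw]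
      unfold tm
      simp only [key]

end Pool.Agent.TH362.TF
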