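import Pool.Agent.H16.FV.L.Cub
import Pool.Agent.H16.FV.L.Red
import Mathlib.Logic.Relation
import Mathlib.Data.Fin.VecNotation
import Mathlib.Algebra.BigOperators.Fin
import Mathlib.Algebra.CharP.Two
import Mathlib.Algebra.Module.Prod
import Mathlib.Tactic.Abel
import Mathlib.Tactic.LinearCombination

/-!
The Kempe chain argument for cycles of length four (helper938).
-/

set_option autoImplicit false

namespace Pool.Agent.TH362.TF

open Finset

namespace Four

/-- the symplectic form on `F` -/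
def om (r x : F) : ZMod 2 := r.1 * x.2 + r.2 * x.1

/-- the symplectic form as a homomorphism -/
def omH (r : F) : F →+ ZMod 2 where
  toFun := om r
  map_zero' := by simp [om]
  map_add' := by intro x y; simp only [om, Prod.fst_add, Prod.snd_add]; ring

theorem om_facts : ∀ p q : F, p ≠ 0 → q ≠ 0 → p ≠ q →
    om (p + q) p = 1 ∧ om (p + q) q = 1 := by
  decide

theorem om_ne : ∀ r x : F, om r x = 1 → x + r ≠ 0 := by
  decide

/-- the values on the edges of the cycle exist -/
def Good (pa pb pc : F) : Prop :=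
  ∃ x : F, x ≠ 0 ∧ pa + x ≠ 0 ∧ x + pb ≠ 0 ∧ x + pb + pc ≠ 0

instance (pa pb pc : F) : Decidable (Good pa pb pc) := by unfold Good; infer_instance

theorem good_or : ∀ pa pb pc pd : F, pa ≠ 0 → pb ≠ 0 → pc ≠ 0 → pd ≠ 0 →
    pa + pb + pc + pd = 0 → Good pa pb pc ∨ (pa = pc ∧ pb = pd ∧ pa ≠ pb) := by
  decide

theorem good_kempe : ∀ p q : F, p ≠ 0 → q ≠ 0 → p ≠ q →
    Good (p + (p + q)) (q + (p + q)) p ∧ Good (p + (p + q)) q (p + (p + q)) ∧
      Good (p + (p + q)) q p := by
  decide

theorem four_cases : ∀ j : Fin 4, j ≠ 0 → j = 1 ∨ j = 2 ∨ j = 3 := by decide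

theorem two_cases : ∀ x : ZMod 2, x = 0 ∨ x = 1 := by decide

section
variable {V E : Type} [DecidableEq V] [DecidableEq E]

/-- the sum of the values at `v` -/
def B {M : Type} [AddCommMonoid M] (s t : E → V) (S : Finset E) (δ : E → M) (v : V) : M :=
  ∑ e ∈ S, ((if s e = v then δ e else 0) + (if t e = v then δ e else 0))

omit [DecidableEq E] in
theorem B_add {M : Type} [AddCommMonoid M] (s t : E → V) (S : Finset E) (δ δ' : E → M) (v : V) :
    B s t S (fun e => δ e + δ' e) v = B s t S δ v + B s t S δ' v := by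
  unfold B
  rw [← Finset.sum_add_distrib]
  refine Finset.sum_congr rfl fun e _ => ?_
  split_ifs
  · exact add_add_add_comm _ _ _ _
  · simp
  · simp
  · simp

theorem B_single (s t : E → V) (S : Finset E) (x : E) (hx : x ∈ S) (v : V) :
    B s t S (fun e => if e = x then (1 : ZMod 2) else 0) v =
      (if s x = v then 1 else 0) + (if t x = v then 1 else 0) := by
  unfold B
  rw [Finset.sum_eq_single x]
  · simp
  · intro e _ he
    simp [he]
  · intro h
    exact absurd hx h

omit [DecidableEq E] in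
theorem B_hom {M M' : Type} [AddCommMonoid M] [AddCommMonoid M'] (f : M →+ M') (s t : E → V)
    (S : Finset E) (δ : E → M) (v : V) :
    B s t S (fun e => f (δ e)) v = f (B s t S δ v) := by
  unfold B
  rw [map_sum]
  refine Finset.sum_congr rfl fun e _ => ?_
  rw [map_add]
  split_ifs <;> simp

omit [DecidableEq E] in
theorem ends_ite {s t : E → V} {u w : V} {x : E} (h : Ends s t u w x) (v : V) :
    ((if s x = v then (1 : ZMod 2) else 0) + (if t x = v then 1 else 0)) =
      (if u = v then 1 else 0) + (if w = v then 1 else 0) := by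
  rcases h with ⟨h1, h2⟩ | ⟨h1, h2⟩
  · rw [h1, h2]
  · rw [h1, h2, add_comm]

theorem kempe [Fintype V] (s t : E → V) (S : Finset E) (Q : V → Prop) (φ : E → F) (r : F)
    (hφ : ∀ v, ¬ Q v → B s t S φ v = 0) (g : Fin 4 → E) (inn out : Fin 4 → V)
    (hgS : ∀ i, g i ∈ S) (hinj : Function.Injective g)
    (hends : ∀ i, Ends s t (inn i) (out i) (g i)) (hin : ∀ i, Q (inn i))
    (hout : ∀ i, ¬ Q (out i)) (hQ : ∀ e ∈ S, Q (s e) ∨ Q (t e) → ∃ i, e = g i)
    (hg : ∀ i, om r (φ (g i)) = 1) :
    ∃ (δ : E → ZMod 2) (j : Fin 4), j ≠ 0 ∧ (∀ e ∈ S, δ e = 1 → om r (φ e) = 1) ∧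
      (∀ v, ¬ Q v → B s t S δ v = 0) ∧ δ (g 0) = 1 ∧ δ (g j) = 1 ∧
      ∀ k, k ≠ 0 → k ≠ j → δ (g k) = 0 := by
  classical
  set R : V → V → Prop := fun u u' =>
    ∃ x ∈ S, om r (φ x) = 1 ∧ Ends s t u u' x ∧ ¬ Q u ∧ ¬ Q u' with hR
  have hJ : ∀ u, Relation.ReflTransGen R (out 0) u → ¬ Q u ∧ ∃ δ : E → ZMod 2,
      (∀ e, δ e ≠ 0 → e ∈ S ∧ om r (φ e) = 1 ∧ ¬ Q (s e) ∧ ¬ Q (t e)) ∧
      ∀ v, B s t S δ v = (if out 0 = v then 1 else 0) + (if u = v then 1 else 0) := by
    intro u hu
    induction hu with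
    | refl =>
      refine ⟨hout 0, fun _ => 0, fun e he => absurd rfl he, fun v => ?_⟩
      rw [CharTwo.add_self_eq_zero]
      unfold B
      simp
    | @tail u u' _ h ih =>
      obtain ⟨_, δ, hδ, hB⟩ := ih
      obtain ⟨x, hxS, hx1, hxe, hu, hu'⟩ := h
      refine ⟨hu', fun e => δ e + (if e = x then 1 else 0), fun e he => ?_, fun v => ?_⟩
      · by_cases hex : e = x
        · subst hex
          refine ⟨hxS, hx1, ?_, ?_⟩
          · rcases hxe with ⟨h1, h2⟩ | ⟨h1, h2⟩
            · rw [h1]; exact hu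
            · rw [h1]; exact hu'
          · rcases hxe with ⟨h1, h2⟩ | ⟨h1, h2⟩
            · rw [h2]; exact hu'
            · rw [h2]; exact hu
        · simp only [if_neg hex, add_zero] at he
          exact hδ e he
      · rw [B_add, B_single s t S x hxS v, hB v, ends_ite hxe v]
        have h2 : (if u = v then (1 : ZMod 2) else 0) + (if u = v then 1 else 0) = 0 :=
          CharTwo.add_self_eq_zero _
        linear_combination h2
  have hex : ∃ j : Fin 4, j ≠ 0 ∧ Relation.ReflTransGen R (out 0) (out j) := by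
    by_contra hcon
    push Not at hcon
    set K : Finset V := univ.filter (fun u => Relation.ReflTransGen R (out 0) u) with hK
    have hKQ : ∀ v ∈ K, ¬ Q v := fun v hv => (hJ v (Finset.mem_filter.1 hv).2).1
    have tot : ∑ v ∈ K, B s t S (fun e => omH r (φ e)) v = 0 := by
      refine Finset.sum_eq_zero fun v hv => ?_
      rw [B_hom, hφ v (hKQ v hv), map_zero]
    have sw : ∑ v ∈ K, B s t S (fun e => omH r (φ e)) v =
        ∑ e ∈ S, ((if s e ∈ K then om r (φ e) else 0) + (if t e ∈ K then om r (φ e) else 0)) := by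
      unfold B
      rw [Finset.sum_comm]
      refine Finset.sum_congr rfl fun e _ => ?_
      rw [Finset.sum_add_distrib, Finset.sum_ite_eq, Finset.sum_ite_eq]
      rfl
    have hone : ∑ e ∈ S, ((if s e ∈ K then om r (φ e) else 0) +
        (if t e ∈ K then om r (φ e) else 0)) = 1 := by
      have hin0 : ∀ i, inn i ∉ K := fun i h => hKQ _ h (hin i)
      have hout0 : out 0 ∈ K := by
        rw [hK, Finset.mem_filter]
        exact ⟨Finset.mem_univ _, Relation.ReflTransGen.refl⟩
      have houtj : ∀ j, j ≠ 0 → out j ∉ K := fun j hj h =>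
        hcon j hj (Finset.mem_filter.1 h).2
      rw [Finset.sum_eq_single (g 0)]
      · rcases hends 0 with ⟨h1, h2⟩ | ⟨h1, h2⟩
        · rw [h1, h2, if_neg (hin0 0), if_pos hout0, hg 0, zero_add]
        · rw [h1, h2, if_pos hout0, if_neg (hin0 0), hg 0, add_zero]
      · intro e he hne
        rcases two_cases (om r (φ e)) with h0 | h1
        · rw [h0]; simp
        · by_cases hq : Q (s e) ∨ Q (t e)
          · obtain ⟨i, rfl⟩ := hQ e he hq
            have hi : i ≠ 0 := fun h => hne (by rw [h])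
            rcases hends i with ⟨h1, h2⟩ | ⟨h1, h2⟩
            · rw [h1, h2, if_neg (hin0 i), if_neg (houtj i hi), zero_add]
            · rw [h1, h2, if_neg (houtj i hi), if_neg (hin0 i), zero_add]
          · push Not at hq
            have hiff : s e ∈ K ↔ t e ∈ K := by
              rw [hK, Finset.mem_filter, Finset.mem_filter]
              constructor
              · rintro ⟨_, h⟩
                exact ⟨Finset.mem_univ _, h.tail ⟨e, he, h1, Or.inl ⟨rfl, rfl⟩, hq.1, hq.2⟩⟩
              · rintro ⟨_, h⟩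
                exact ⟨Finset.mem_univ _, h.tail ⟨e, he, h1, Or.inr ⟨rfl, rfl⟩, hq.2, hq.1⟩⟩
            by_cases hs : s e ∈ K
            · rw [if_pos hs, if_pos (hiff.1 hs), CharTwo.add_self_eq_zero]
            · rw [if_neg hs, if_neg (fun h => hs (hiff.2 h)), zero_add]
      · intro h
        exact absurd (hgS 0) h
    rw [sw, hone] at tot
    exact one_ne_zero tot
  obtain ⟨j, hj, hreach⟩ := hex
  obtain ⟨_, δ, hδ, hB⟩ := hJ _ hreach
  have hδg : ∀ i, δ (g i) = 0 := by
    intro i
    by_contra hne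
    obtain ⟨_, _, h1, h2⟩ := hδ _ hne
    rcases hends i with ⟨h3, h4⟩ | ⟨h3, h4⟩
    · exact h1 (by rw [h3]; exact hin i)
    · exact h2 (by rw [h4]; exact hin i)
  have h0j : g 0 ≠ g j := fun h => hj (hinj h).symm
  refine ⟨fun e => (δ e + (if e = g 0 then 1 else 0)) + (if e = g j then 1 else 0), j, hj,
    ?_, ?_, ?_, ?_, ?_⟩
  · intro e he h1
    by_cases hx : e = g 0
    · rw [hx]; exact hg 0
    · by_cases hy : e = g j
      · rw [hy]; exact hg j
      · simp only [if_neg hx, if_neg hy, add_zero] at h1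
        exact (hδ e (by rw [h1]; exact one_ne_zero)).2.1
  · intro v hv
    rw [B_add, B_add, B_single s t S _ (hgS 0) v, B_single s t S _ (hgS j) v, hB v,
      ends_ite (hends 0) v, ends_ite (hends j) v]
    have e1 : inn 0 ≠ v := fun h => hv (h ▸ hin 0)
    have e2 : inn j ≠ v := fun h => hv (h ▸ hin j)
    rw [if_neg e1, if_neg e2]
    have h2 : (if out 0 = v then (1 : ZMod 2) else 0) + (if out 0 = v then 1 else 0) = 0 :=
      CharTwo.add_self_eq_zero _
    have h3 : (if out j = v then (1 : ZMod 2) else 0) + (if out j = v then 1 else 0) = 0 :=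
      CharTwo.add_self_eq_zero _
    linear_combination h2 + h3
  · simp only [hδg, if_true, if_neg h0j, zero_add, add_zero]
  · simp only [hδg, if_neg h0j.symm, if_true, zero_add]
  · intro k hk hkj
    have e1 : g k ≠ g 0 := fun h => hk (hinj h)
    have e2 : g k ≠ g j := fun h => hkj (hinj h)
    simp only [hδg, if_neg e1, if_neg e2, add_zero]

/-- multiples of `r` -/
def mulH (r : F) : ZMod 2 →+ F where
  toFun := fun m => (m * r.1, m * r.2)
  map_zero' := by simp
  map_add' := by intro x y; simp [add_mul]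

omit [DecidableEq V] [DecidableEq E] in
theorem ends_Q {s t : E → V} {Q : V → Prop} {u w u' w' : V} {x : E} (h : Ends s t u w x)
    (h' : Ends s t u' w' x) (hu : Q u) (hw : ¬ Q w) (hu' : Q u') (hw' : ¬ Q w') : u = u' := by
  rcases h with ⟨h1, h2⟩ | ⟨h1, h2⟩ <;> rcases h' with ⟨h3, h4⟩ | ⟨h3, h4⟩
  · rw [← h1, ← h3]
  · exact absurd (h3.symm.trans h1 ▸ hu) hw'
  · exact absurd (h3.symm.trans h1 ▸ hu') (fun h => hw h)
  · rw [← h2, ← h4]

omit [DecidableEq V] [DecidableEq E] in
theorem ends_ne {s t : E → V} {u w u' w' : V} {x x' : E} (h : Ends s t u w x)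
    (h' : Ends s t u' w' x') (h1 : ¬ (u = u' ∧ w = w')) (h2 : ¬ (u = w' ∧ w = u')) :
    x ≠ x' := by
  rintro rfl
  rcases h with ⟨a, b⟩ | ⟨a, b⟩ <;> rcases h' with ⟨a', b'⟩ | ⟨a', b'⟩
  · exact h1 ⟨a.symm.trans a', b.symm.trans b'⟩
  · exact h2 ⟨a.symm.trans a', b.symm.trans b'⟩
  · exact h2 ⟨b.symm.trans b', a.symm.trans a'⟩
  · exact h1 ⟨b.symm.trans b', a.symm.trans a'⟩

end

section
variable {V E : Type} [Fintype V] [DecidableEq V] [DecidableEq E]

open Cub

theorem deg_one {s t : E → V} {S : Finset E} {v : V} (h : deg s t S v = 1) :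
    ∃ g ∈ S, ∃ u, u ≠ v ∧ Ends s t v u g ∧ (∀ φ : E → F, cs s t S φ v = φ g) ∧
      ∀ x ∈ S, s x = v ∨ t x = v → x = g := by
  have hex : ∃ g ∈ S, ((if s g = v then 1 else 0) + (if t g = v then 1 else 0)) ≠ 0 := by
    by_contra hcon
    push Not at hcon
    unfold deg at h
    rw [sum_eq_zero hcon] at h
    exact absurd h (by norm_num)
  obtain ⟨g, hg, hgv⟩ := hex
  rw [deg_erase hg] at h
  have h1 : deg s t (S.erase g) v = 0 := by omega
  have h0 : ∀ x ∈ S.erase g, s x ≠ v ∧ t x ≠ v := by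
    intro x hx
    unfold deg at h1
    have h3 := (sum_eq_zero_iff.1 h1) x hx
    by_cases ha : s x = v <;> by_cases hb : t x = v <;> simp [ha, hb] at h3 ⊢
  have h2 : ∀ φ : E → F, cs s t (S.erase g) φ v = 0 := by
    intro φ
    unfold cs
    apply sum_eq_zero
    intro x hx
    rw [if_neg (h0 x hx).1, if_neg (h0 x hx).2, add_zero]
  rw [h1, add_zero] at h
  have huniq : ∀ x ∈ S, s x = v ∨ t x = v → x = g := by
    intro x hx hxv
    by_contra hne
    obtain ⟨h3, h4⟩ := h0 x (mem_erase.2 ⟨hne, hx⟩)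
    rcases hxv with h5 | h5
    · exact h3 h5
    · exact h4 h5
  by_cases ha : s g = v
  · by_cases hb : t g = v
    · simp [ha, hb] at h
    · refine ⟨g, hg, t g, hb, Or.inl ⟨ha, rfl⟩, fun φ => ?_, huniq⟩
      rw [cs_erase hg, h2, if_pos ha, if_neg hb, add_zero, add_zero]
  · by_cases hb : t g = v
    · refine ⟨g, hg, s g, ha, Or.inr ⟨rfl, hb⟩, fun φ => ?_, huniq⟩
      rw [cs_erase hg, h2, if_neg ha, if_pos hb, zero_add, add_zero]
    · simp [ha, hb] at h

theorem outside {s t : E → V} {S : Finset E} (h : MinC s t S) {v n o m u : V} {e f g : E}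
    (hv : deg s t S v = 3) (hn : deg s t S n = 3) (ho : deg s t S o = 3) (hm : deg s t S m = 3)
    (he : e ∈ S) (hf : f ∈ S) (hg : g ∈ S) (hge : g ≠ e) (hgf : g ≠ f)
    (Ee : Ends s t v n e) (Ef : Ends s t v m f) (Eg : Ends s t v u g) (hno : Adj s t S n o)
    (huv : u ≠ v) : u ≠ v ∧ u ≠ n ∧ u ≠ o ∧ u ≠ m := by
  refine ⟨huv, ?_, ?_, ?_⟩
  · rintro rfl
    exact h.nopar hv hn hg he hge Eg Ee
  · rintro rfl
    exact h.notri hv hn ho ⟨e, he, Ee⟩ hno ⟨g, hg, Eg.symm⟩
  · rintro rfl
    exact h.nopar hv hm hg hf hgf Eg Ef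

end

end Four

open Four Cub

variable {V E : Type} [Fintype V] [DecidableEq V] [DecidableEq E]

theorem MinC.nofour {s t : E → V} {S : Finset E} (h : MinC s t S) {a b c d : V}
    (ha : deg s t S a = 3) (hb : deg s t S b = 3) (hc : deg s t S c = 3) (hd : deg s t S d = 3)
    (hac : a ≠ c) (hbd : b ≠ d)
    (hab : Adj s t S a b) (hbc : Adj s t S b c) (hcd : Adj s t S c d) (hda : Adj s t S d a) :
    False := by
  obtain ⟨e1, he1, E1⟩ := id hab
  obtain ⟨e2, he2, E2⟩ := id hbc
  obtain ⟨e3, he3, E3⟩ := id hcd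
  obtain ⟨e4, he4, E4⟩ := id hda
  have nab : a ≠ b := by
    rintro rfl; exact noloop3 h ha he1 E1
  have nbc : b ≠ c := by
    rintro rfl; exact noloop3 h hb he2 E2
  have ncd : c ≠ d := by
    rintro rfl; exact noloop3 h hc he3 E3
  have nda : d ≠ a := by
    rintro rfl; exact noloop3 h hd he4 E4
  have n12 : e1 ≠ e2 := ends_ne E1 E2 (fun h => nab h.1) (fun h => hac h.1)
  have n13 : e1 ≠ e3 := ends_ne E1 E3 (fun h => hac h.1) (fun h => nda h.1.symm)
  have n14 : e1 ≠ e4 := ends_ne E1 E4 (fun h => nda h.1.symm) (fun h => hbd h.2)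
  have n23 : e2 ≠ e3 := ends_ne E2 E3 (fun h => nbc h.1) (fun h => hbd h.1)
  have n24 : e2 ≠ e4 := ends_ne E2 E4 (fun h => hbd h.1) (fun h => nab h.1.symm)
  have n34 : e3 ≠ e4 := ends_ne E3 E4 (fun h => ncd h.1) (fun h => hac h.1.symm)
  have m2 : e2 ∈ S.erase e1 := mem_erase.2 ⟨n12.symm, he2⟩
  have m3 : e3 ∈ (S.erase e1).erase e2 :=
    mem_erase.2 ⟨n23.symm, mem_erase.2 ⟨n13.symm, he3⟩⟩
  have m4 : e4 ∈ ((S.erase e1).erase e2).erase e3 :=
    mem_erase.2 ⟨n34.symm, mem_erase.2 ⟨n24.symm, mem_erase.2 ⟨n14.symm, he4⟩⟩⟩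
  set S' := (((S.erase e1).erase e2).erase e3).erase e4 with hS'
  have hmem : ∀ x, x ∈ S' ↔ x ≠ e4 ∧ x ≠ e3 ∧ x ≠ e2 ∧ x ≠ e1 ∧ x ∈ S := by
    intro x
    rw [hS', mem_erase, mem_erase, mem_erase, mem_erase]
  have hsub : S' ⊆ S := fun x hx => ((hmem x).1 hx).2.2.2.2
  have hcard : S'.card < S.card :=
    (((card_erase_lt_of_mem m4).trans (card_erase_lt_of_mem m3)).trans
      (card_erase_lt_of_mem m2)).trans (card_erase_lt_of_mem he1)
  have hdeg : ∀ w, deg s t S w = (if w = a ∨ w = b then 1 else 0) +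
      ((if w = b ∨ w = c then 1 else 0) + ((if w = c ∨ w = d then 1 else 0) +
        ((if w = d ∨ w = a then 1 else 0) + deg s t S' w))) := by
    intro w
    rw [deg_erase he1, deg_erase m2, deg_erase m3, deg_erase m4, ends_deg E1 nab,
      ends_deg E2 nbc, ends_deg E3 ncd, ends_deg E4 nda]
  have hda' : deg s t S' a = 1 := by
    have := hdeg a
    simp only [or_true, if_true, nab, hac, nda.symm, or_false, if_false] at this
    omega
  have hdb' : deg s t S' b = 1 := by
    have := hdeg b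
    simp only [or_true, if_true, nab.symm, nbc, hbd, or_false, if_false] at this
    omega
  have hdc' : deg s t S' c = 1 := by
    have := hdeg c
    simp only [or_true, if_true, nbc.symm, hac.symm, ncd, or_false, if_false] at this
    omega
  have hdd' : deg s t S' d = 1 := by
    have := hdeg d
    simp only [or_true, if_true, nda, hbd.symm, ncd.symm, or_false, if_false] at this
    omega
  obtain ⟨ga, hga, ua, hua, Ea, ca, wa⟩ := deg_one hda'
  obtain ⟨gb, hgb, ub, hub, Eb, cb, wb⟩ := deg_one hdb'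
  obtain ⟨gc, hgc, uc, huc, Ec, cc, wc⟩ := deg_one hdc'
  obtain ⟨gd, hgd, ud, hud, Ed, cd, wd⟩ := deg_one hdd'
  have oa := outside h ha hb hc hd he1 he4 (hsub hga) ((hmem ga).1 hga).2.2.2.1
    ((hmem ga).1 hga).1 E1 E4.symm Ea hbc hua
  have ob := outside h hb hc hd ha he2 he1 (hsub hgb) ((hmem gb).1 hgb).2.2.1
    ((hmem gb).1 hgb).2.2.2.1 E2 E1.symm Eb hcd hub
  have oc := outside h hc hd ha hb he3 he2 (hsub hgc) ((hmem gc).1 hgc).2.1
    ((hmem gc).1 hgc).2.2.1 E3 E2.symm Ec hda huc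
  have od := outside h hd ha hb hc he4 he3 (hsub hgd) ((hmem gd).1 hgd).1
    ((hmem gd).1 hgd).2.1 E4 E3.symm Ed hab hud
  have two0 : (2 : F) = 0 := by decide
  -- the extension of a flow of the outer part
  have key : ∀ φ' : E → F, (∀ x ∈ S', φ' x ≠ 0) →
      (∀ v, ¬ (v = a ∨ v = b ∨ v = c ∨ v = d) → B s t S' φ' v = 0) →
      Good (φ' ga) (φ' gb) (φ' gc) → φ' ga + φ' gb + φ' gc + φ' gd = 0 → False := by
    intro φ' hnz hcw hgood hsum
    obtain ⟨y, hy1, hy2, hy3, hy4⟩ := hgood
    apply h.nz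
    let φ : E → F := fun x => if x = e1 then y else if x = e2 then y + φ' gb else
      if x = e3 then y + φ' gb + φ' gc else if x = e4 then φ' ga + y else φ' x
    have hφ1 : φ e1 = y := by simp [φ]
    have hφ2 : φ e2 = y + φ' gb := by simp [φ, n12.symm]
    have hφ3 : φ e3 = y + φ' gb + φ' gc := by simp [φ, n13.symm, n23.symm]
    have hφ4 : φ e4 = φ' ga + y := by simp [φ, n14.symm, n24.symm, n34.symm]
    have hφ : ∀ x ∈ S', φ x = φ' x := by
      intro x hx
      obtain ⟨h1, h2, h3, h4, -⟩ := (hmem x).1 hx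
      simp [φ, h1, h2, h3, h4]
    refine ⟨φ, ?_, ?_⟩
    · intro x hx
      by_cases h1 : x = e1
      · rw [h1, hφ1]; exact hy1
      by_cases h2 : x = e2
      · rw [h2, hφ2]; exact hy3
      by_cases h3 : x = e3
      · rw [h3, hφ3]; exact hy4
      by_cases h4 : x = e4
      · rw [h4, hφ4]; exact hy2
      have hx' : x ∈ S' := (hmem x).2 ⟨h4, h3, h2, h1, hx⟩
      rw [hφ x hx']; exact hnz x hx'
    · intro w
      change cs s t S φ w = 0
      rw [cs_erase he1, cs_erase m2, cs_erase m3, cs_erase m4, ends_at E1 nab, ends_at E2 nbc,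
        ends_at E3 ncd, ends_at E4 nda, hφ1, hφ2, hφ3, hφ4, cs_congr hφ]
      by_cases hwa : w = a
      · rw [hwa, ca]
        simp only [or_true, if_true, nab, hac, nda.symm, or_false, if_false]
        linear_combination (y + φ' ga) * two0
      by_cases hwb : w = b
      · rw [hwb, cb]
        simp only [or_true, if_true, nab.symm, nbc, hbd, or_false, if_false]
        linear_combination (y + φ' gb) * two0
      by_cases hwc : w = c
      · rw [hwc, cc]
        simp only [or_true, if_true, nbc.symm, hac.symm, ncd, or_false, if_false]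
        linear_combination (y + φ' gb + φ' gc) * two0
      by_cases hwd : w = d
      · rw [hwd, cd]
        simp only [or_true, if_true, nda, hbd.symm, ncd.symm, or_false, if_false]
        linear_combination y * two0 + hsum
      · rw [if_neg (by tauto), if_neg (by tauto), if_neg (by tauto), if_neg (by tauto)]
        have := hcw w (by tauto)
        change cs s t S' φ' w = 0 at this
        rw [this]
        simp
  -- a flow of the quotient
  let f : V → V := fun w => if w = b ∨ w = c ∨ w = d then a else w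
  have hfa : f a = a := by simp only [f]; split_ifs <;> rfl
  have hfb : f b = a := by simp [f]
  have hfc : f c = a := by simp [f]
  have hfd : f d = a := by simp [f]
  have hfw : ∀ w, w ≠ b → w ≠ c → w ≠ d → f w = w := fun w h1 h2 h3 => by simp [f, h1, h2, h3]
  obtain ⟨φ, hnz, hcons⟩ := red h (f := f) hsub (fun x hx hx' => by
    by_cases h1 : x = e1
    · rw [h1]
      rcases E1 with ⟨x1, x2⟩ | ⟨x1, x2⟩ <;> rw [x1, x2, hfa, hfb]
    by_cases h2 : x = e2
    · rw [h2]
      rcases E2 with ⟨x1, x2⟩ | ⟨x1, x2⟩ <;> rw [x1, x2, hfb, hfc]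
    by_cases h3 : x = e3
    · rw [h3]
      rcases E3 with ⟨x1, x2⟩ | ⟨x1, x2⟩ <;> rw [x1, x2, hfc, hfd]
    by_cases h4 : x = e4
    · rw [h4]
      rcases E4 with ⟨x1, x2⟩ | ⟨x1, x2⟩ <;> rw [x1, x2, hfd, hfa]
    exact absurd ((hmem x).2 ⟨h4, h3, h2, h1, hx⟩) hx') hcard
  have hcu : cs s t S' φ a + (cs s t S' φ b + (cs s t S' φ c + cs s t S' φ d)) = 0 := by
    have h3 := cons_fib (hcons a)
    have h4 : univ.filter (fun w => f w = a) = {a, b, c, d} := by
      ext w
      simp only [mem_filter, mem_univ, true_and, mem_insert, mem_singleton]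
      constructor
      · intro hw
        by_cases hwb : w = b
        · exact Or.inr (Or.inl hwb)
        by_cases hwc : w = c
        · exact Or.inr (Or.inr (Or.inl hwc))
        by_cases hwd : w = d
        · exact Or.inr (Or.inr (Or.inr hwd))
        rw [hfw w hwb hwc hwd] at hw
        exact Or.inl hw
      · rintro (rfl | rfl | rfl | rfl)
        · exact hfa
        · exact hfb
        · exact hfc
        · exact hfd
    rw [h4, sum_insert (by
      rw [mem_insert, mem_insert, mem_singleton]; push Not; exact ⟨nab, hac, nda.symm⟩),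
      sum_insert (by rw [mem_insert, mem_singleton]; push Not; exact ⟨nbc, hbd⟩),
      sum_pair ncd] at h3
    exact h3
  have hcw : ∀ w, ¬ (w = a ∨ w = b ∨ w = c ∨ w = d) → B s t S' φ w = 0 := by
    intro w hw
    push Not at hw
    obtain ⟨hwa, hwb, hwc, hwd⟩ := hw
    have h3 := cons_fib (hcons w)
    have h4 : univ.filter (fun x => f x = w) = {w} := by
      ext x
      simp only [mem_filter, mem_univ, true_and, mem_singleton]
      constructor
      · intro hx
        by_cases hxb : x = b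
        · rw [hxb, hfb] at hx; exact absurd hx.symm hwa
        by_cases hxc : x = c
        · rw [hxc, hfc] at hx; exact absurd hx.symm hwa
        by_cases hxd : x = d
        · rw [hxd, hfd] at hx; exact absurd hx.symm hwa
        rw [hfw x hxb hxc hxd] at hx
        exact hx
      · rintro rfl
        exact hfw x hwb hwc hwd
    rw [h4, sum_singleton] at h3
    exact h3
  rw [ca, cb, cc, cd] at hcu
  have hsum : φ ga + φ gb + φ gc + φ gd = 0 := by rw [← hcu]; abel
  rcases good_or (φ ga) (φ gb) (φ gc) (φ gd) (hnz ga hga) (hnz gb hgb) (hnz gc hgc)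
    (hnz gd hgd) hsum with hgood | ⟨hpc, hpd, hpq⟩
  · exact key φ hnz hcw hgood hsum
  -- the Kempe change
  obtain ⟨om1, om2⟩ := om_facts (φ ga) (φ gb) (hnz ga hga) (hnz gb hgb) hpq
  set r : F := φ ga + φ gb with hr
  have hgS : ∀ i, (![ga, gb, gc, gd] : Fin 4 → E) i ∈ S' := by
    intro i; fin_cases i
    · exact hga
    · exact hgb
    · exact hgc
    · exact hgd
  have hends : ∀ i, Ends s t ((![a, b, c, d] : Fin 4 → V) i) ((![ua, ub, uc, ud] : Fin 4 → V) i)
      ((![ga, gb, gc, gd] : Fin 4 → E) i) := by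
    intro i; fin_cases i
    · exact Ea
    · exact Eb
    · exact Ec
    · exact Ed
  have hin : ∀ i, (fun v => v = a ∨ v = b ∨ v = c ∨ v = d) ((![a, b, c, d] : Fin 4 → V) i) := by
    intro i; fin_cases i
    · exact Or.inl rfl
    · exact Or.inr (Or.inl rfl)
    · exact Or.inr (Or.inr (Or.inl rfl))
    · exact Or.inr (Or.inr (Or.inr rfl))
  have hout : ∀ i, ¬ (fun v => v = a ∨ v = b ∨ v = c ∨ v = d)
      ((![ua, ub, uc, ud] : Fin 4 → V) i) := by
    intro i; fin_cases i
    · rintro (h1 | h1 | h1 | h1)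
      exacts [oa.1 h1, oa.2.1 h1, oa.2.2.1 h1, oa.2.2.2 h1]
    · rintro (h1 | h1 | h1 | h1)
      exacts [ob.2.2.2 h1, ob.1 h1, ob.2.1 h1, ob.2.2.1 h1]
    · rintro (h1 | h1 | h1 | h1)
      exacts [oc.2.2.1 h1, oc.2.2.2 h1, oc.1 h1, oc.2.1 h1]
    · rintro (h1 | h1 | h1 | h1)
      exacts [od.2.1 h1, od.2.2.1 h1, od.2.2.2 h1, od.1 h1]
  have hinj : Function.Injective (![ga, gb, gc, gd] : Fin 4 → E) := by
    intro i j hij
    have h1 : (![a, b, c, d] : Fin 4 → V) i = (![a, b, c, d] : Fin 4 → V) j := by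
      have h2 := hends j
      rw [← hij] at h2
      exact ends_Q (Q := fun v => v = a ∨ v = b ∨ v = c ∨ v = d) (hends i) h2 (hin i) (hout i)
        (hin j) (hout j)
    revert h1
    clear hij
    fin_cases i <;> fin_cases j <;>
      simp [nab, nbc, ncd, nda, hac, hbd, nab.symm, nbc.symm, ncd.symm, nda.symm, hac.symm,
        hbd.symm]
  have hQ : ∀ x ∈ S', (fun v => v = a ∨ v = b ∨ v = c ∨ v = d) (s x) ∨
      (fun v => v = a ∨ v = b ∨ v = c ∨ v = d) (t x) →
      ∃ i, x = (![ga, gb, gc, gd] : Fin 4 → E) i := by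
    intro x hx hh
    rcases hh with (h1 | h1 | h1 | h1) | (h1 | h1 | h1 | h1)
    · exact ⟨0, wa x hx (Or.inl h1)⟩
    · exact ⟨1, wb x hx (Or.inl h1)⟩
    · exact ⟨2, wc x hx (Or.inl h1)⟩
    · exact ⟨3, wd x hx (Or.inl h1)⟩
    · exact ⟨0, wa x hx (Or.inr h1)⟩
    · exact ⟨1, wb x hx (Or.inr h1)⟩
    · exact ⟨2, wc x hx (Or.inr h1)⟩
    · exact ⟨3, wd x hx (Or.inr h1)⟩
  have hg : ∀ i, om r (φ ((![ga, gb, gc, gd] : Fin 4 → E) i)) = 1 := by
    intro i; fin_cases i
    · exact om1
    · exact om2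
    · change om r (φ gc) = 1
      rw [← hpc]; exact om1
    · change om r (φ gd) = 1
      rw [← hpd]; exact om2
  obtain ⟨δ, j, hj, h1, h2, h3, h4, h5⟩ := kempe s t S' _ φ r hcw _ _ _ hgS hinj hends hin hout
    hQ hg
  have hm0 : mulH r 0 = 0 := map_zero _
  have hm1 : mulH r 1 = r := by
    change ((1 : ZMod 2) * r.1, (1 : ZMod 2) * r.2) = r
    rw [one_mul, one_mul]
  have hnz' : ∀ x ∈ S', φ x + mulH r (δ x) ≠ 0 := by
    intro x hx
    rcases two_cases (δ x) with h | h
    · rw [h, hm0, add_zero]; exact hnz x hx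
    · rw [h, hm1]; exact om_ne r (φ x) (h1 x hx h)
  have hcw' : ∀ v, ¬ (v = a ∨ v = b ∨ v = c ∨ v = d) →
      B s t S' (fun e => φ e + mulH r (δ e)) v = 0 := by
    intro v hv
    rw [B_add, B_hom, hcw v hv, h2 v hv, map_zero, add_zero]
  have k0 : δ ga = 1 := h3
  have kg := good_kempe (φ ga) (φ gb) (hnz ga hga) (hnz gb hgb) hpq
  have hj' : j = 1 ∨ j = 2 ∨ j = 3 := four_cases j hj
  rcases hj' with rfl | rfl | rfl
  · have k1 : δ gb = 1 := h4
    have k2 : δ gc = 0 := h5 2 (by decide) (by decide)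
    have k3 : δ gd = 0 := h5 3 (by decide) (by decide)
    refine key (fun e => φ e + mulH r (δ e)) hnz' hcw' ?_ ?_
    · simp only [k0, k1, k2, hm0, hm1, add_zero, ← hpc]
      exact kg.1
    · simp only [k0, k1, k2, k3, hm0, hm1, add_zero]
      linear_combination hsum + r * two0
  · have k1 : δ gb = 0 := h5 1 (by decide) (by decide)
    have k2 : δ gc = 1 := h4
    have k3 : δ gd = 0 := h5 3 (by decide) (by decide)
    refine key (fun e => φ e + mulH r (δ e)) hnz' hcw' ?_ ?_
    · simp only [k0, k1, k2, hm0, hm1, add_zero, ← hpc]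
      exact kg.2.1
    · simp only [k0, k1, k2, k3, hm0, hm1, add_zero]
      linear_combination hsum + r * two0
  · have k1 : δ gb = 0 := h5 1 (by decide) (by decide)
    have k2 : δ gc = 0 := h5 2 (by decide) (by decide)
    have k3 : δ gd = 1 := h4
    refine key (fun e => φ e + mulH r (δ e)) hnz' hcw' ?_ ?_
    · simp only [k0, k1, k2, hm0, hm1, add_zero, ← hpc]
      exact kg.2.2
    · simp only [k0, k1, k2, k3, hm0, hm1, add_zero]
      linear_combination hsum + r * two0

end Pool.Agent.TH362.TF
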